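import Mathlib

-- part Pool.Agent.Lib.MP_80d0cf_nt.Euler
section

/-! Euler products for diagonal sums of multiplicative functions dominated by `d_k`. -/

namespace Pool.Agent.Lib.MP_80d0cf_nt

open Filter Topology

noncomputable def zr : ArithmeticFunction ℝ := (ArithmeticFunction.zeta : ArithmeticFunction ℕ)

noncomputable def dk (k : ℕ) : ArithmeticFunction ℝ := zr ^ k

lemma zr_apply {n : ℕ} (hn : n ≠ 0) : zr n = 1 := by
  simp [zr, ArithmeticFunction.natCoe_apply, ArithmeticFunction.zeta_apply_ne hn]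

lemma zr_mult : zr.IsMultiplicative := ArithmeticFunction.isMultiplicative_zeta.natCast

lemma dk_one : dk 1 = zr := by simp [dk]

lemma dk_add (k l : ℕ) : dk (k + l) = dk k * dk l := by simp [dk, pow_add]

lemma dk_prime_pow (j : ℕ) {p : ℕ} (hp : p.Prime) (e : ℕ) :
    dk (j + 1) (p ^ e) = ((e + j).choose e : ℕ) := by
  induction j generalizing e with
  | zero => simp [dk_one, zr_apply (pow_ne_zero e hp.ne_zero)]
  | succ j ih =>
    rw [dk_add, dk_one, zr, ArithmeticFunction.coe_mul_zeta_apply, Nat.sum_divisors_prime_pow hp]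
    simp_rw [ih]
    induction e with
    | zero => simp
    | succ e ihe =>
      rw [Finset.sum_range_succ, ihe]
      have : (e + 1 + (j + 1)).choose (e + 1) = (e + (j + 1)).choose e + (e + 1 + j).choose (e + 1) := by
        have e1 : e + 1 + (j + 1) = (e + (j + 1)) + 1 := by ring
        have e2 : e + 1 + j = e + (j + 1) := by ring
        rw [e1, e2, Nat.choose_succ_succ]
      rw [this]; push_cast; ring

/-- A nonnegative multiplicative function dominated by `d_k`. -/
structure Dom (k : ℕ) (F : ArithmeticFunction ℝ) : Prop where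
  mult : F.IsMultiplicative
  nonneg : ∀ n, 0 ≤ F n
  le : ∀ n, F n ≤ dk k n

lemma mul_nonneg_af {f g : ArithmeticFunction ℝ} (hf : ∀ n, 0 ≤ f n) (hg : ∀ n, 0 ≤ g n) (n : ℕ) :
    0 ≤ (f * g) n := by
  rw [ArithmeticFunction.mul_apply]
  exact Finset.sum_nonneg fun x _ => mul_nonneg (hf _) (hg _)

lemma mul_le_mul_af {f g f' g' : ArithmeticFunction ℝ} (hf : ∀ n, 0 ≤ f n) (hg : ∀ n, 0 ≤ g n)
    (hf' : ∀ n, f n ≤ f' n) (hg' : ∀ n, g n ≤ g' n) (n : ℕ) : (f * g) n ≤ (f' * g') n := by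
  rw [ArithmeticFunction.mul_apply, ArithmeticFunction.mul_apply]
  exact Finset.sum_le_sum fun x _ =>
    mul_le_mul (hf' _) (hg' _) (hg _) ((hf _).trans (hf' _))

lemma Dom.mul {k l : ℕ} {F G : ArithmeticFunction ℝ} (hF : Dom k F) (hG : Dom l G) :
    Dom (k + l) (F * G) :=
  ⟨hF.mult.mul hG.mult, mul_nonneg_af hF.nonneg hG.nonneg, fun n => by
    rw [dk_add]; exact mul_le_mul_af hF.nonneg hG.nonneg hF.le hG.le n⟩

lemma one_nonneg_af (n : ℕ) : 0 ≤ (1 : ArithmeticFunction ℝ) n := by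
  rw [ArithmeticFunction.one_apply]; split_ifs <;> norm_num

lemma dom_one : Dom 0 1 :=
  ⟨ArithmeticFunction.isMultiplicative_one, one_nonneg_af, fun n => by simp [dk]⟩

lemma Dom.pow {F : ArithmeticFunction ℝ} (hF : Dom 1 F) (j : ℕ) : Dom j (F ^ j) := by
  induction j with
  | zero => simpa using dom_one
  | succ j ih => rw [pow_succ]; exact ih.mul hF

lemma zr_nonneg (n : ℕ) : 0 ≤ zr n := by
  rcases eq_or_ne n 0 with rfl | h
  · simp
  · rw [zr_apply h]; norm_num

lemma dom_zr : Dom 1 zr := ⟨zr_mult, zr_nonneg, fun n => by rw [dk_one]⟩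

lemma dom_dk (k : ℕ) : Dom k (dk k) := dom_zr.pow k

/-- A family dominated by `d_k` and converging to it. -/
structure Good (k : ℕ) (F : ℝ → ArithmeticFunction ℝ) : Prop where
  dom : ∀ L, 0 < L → Dom k (F L)
  lim : ∀ n, Tendsto (fun L => F L n) atTop (𝓝 (dk k n))

lemma Good.mul {k l : ℕ} {F G : ℝ → ArithmeticFunction ℝ} (hF : Good k F) (hG : Good l G) :
    Good (k + l) (fun L => F L * G L) :=
  ⟨fun L hL => (hF.dom L hL).mul (hG.dom L hL), fun n => by
    simp_rw [dk_add, ArithmeticFunction.mul_apply]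
    exact tendsto_finsetSum _ fun x _ => (hF.lim _).mul (hG.lim _)⟩

lemma good_const (k : ℕ) : Good k (fun _ => dk k) :=
  ⟨fun _ _ => dom_dk k, fun _ => tendsto_const_nhds⟩

lemma good_zr : Good 1 (fun _ => zr) := by simpa [dk_one] using good_const 1

lemma Good.pow {F : ℝ → ArithmeticFunction ℝ} (hF : Good 1 F) (j : ℕ) :
    Good j (fun L => F L ^ j) := by
  induction j with
  | zero => simpa [dk] using good_const 0
  | succ j ih => simpa [pow_succ] using ih.mul hF

lemma mul_apply_prime {f g : ArithmeticFunction ℝ} (hf : f.IsMultiplicative)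
    (hg : g.IsMultiplicative) {p : ℕ} (hp : p.Prime) : (f * g) p = f p + g p := by
  rw [ArithmeticFunction.mul_apply, Nat.sum_divisorsAntidiagonal (fun a b => f a * g b),
    hp.sum_divisors, Nat.div_self hp.pos, Nat.div_one, hf.map_one, hg.map_one]
  ring

lemma pow_apply_prime {f : ArithmeticFunction ℝ} (hf : f.IsMultiplicative) {p : ℕ} (hp : p.Prime)
    (j : ℕ) : (f ^ j) p = j * f p := by
  induction j with
  | zero => simp [ArithmeticFunction.one_apply_ne hp.ne_one]
  | succ j ih => rw [pow_succ, mul_apply_prime (hf.pow) hf hp, ih]; push_cast; ring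

noncomputable def pr (F G : ArithmeticFunction ℝ) (n : ℕ) : ℝ := F n * G n / n

noncomputable def loc (F G : ArithmeticFunction ℝ) (p : ℕ) : ℝ := ∑' e, pr F G (p ^ e)

noncomputable def cj (j : ℕ) : ℝ := ∑' e : ℕ, ((e : ℝ) + 2 + j) ^ (2 * j) * (1 / 2) ^ e

lemma summable_cj (j : ℕ) : Summable fun e : ℕ => ((e : ℝ) + 2 + j) ^ (2 * j) * (1 / 2 : ℝ) ^ e := by
  have h := (summable_nat_add_iff (2 + j)).2
    (summable_pow_mul_geometric_of_norm_lt_one (R := ℝ) (2 * j) (r := 1 / 2) (by norm_num))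
  refine (h.mul_left (2 ^ (2 + j))).congr fun e => ?_
  push_cast
  rw [pow_add (1 / 2 : ℝ) e (2 + j), add_assoc]
  have : (2 : ℝ) ^ (2 + j) * (1 / 2) ^ (2 + j) = 1 := by rw [← mul_pow]; norm_num
  linear_combination (((e : ℝ) + (2 + j)) ^ (2 * j) * (1 / 2) ^ e) * this

lemma cj_nonneg (j : ℕ) : 0 ≤ cj j := tsum_nonneg fun e => by positivity

section
variable {j : ℕ} {F G : ArithmeticFunction ℝ}

lemma pr_nonneg (hF : Dom (j + 1) F) (hG : Dom (j + 1) G) (n : ℕ) : 0 ≤ pr F G n :=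
  div_nonneg (mul_nonneg (hF.nonneg n) (hG.nonneg n)) (Nat.cast_nonneg n)

lemma pr_le (hF : Dom (j + 1) F) (hG : Dom (j + 1) G) (n : ℕ) :
    pr F G n ≤ pr (dk (j + 1)) (dk (j + 1)) n :=
  div_le_div_of_nonneg_right (mul_le_mul (hF.le n) (hG.le n) (hG.nonneg n)
    ((hF.nonneg n).trans (hF.le n))) (Nat.cast_nonneg n)

lemma pr_tail_le (hF : Dom (j + 1) F) (hG : Dom (j + 1) G) {p : ℕ} (hp : p.Prime) (e : ℕ) :
    pr F G (p ^ (e + 2)) ≤ 1 / (p : ℝ) ^ 2 * (((e : ℝ) + 2 + j) ^ (2 * j) * (1 / 2) ^ e) := by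
  refine (pr_le hF hG _).trans ?_
  rw [pr, dk_prime_pow j hp]
  have hp2 : (2 : ℝ) ≤ p := by exact_mod_cast hp.two_le
  have h1 : (((e + 2 + j).choose (e + 2) : ℕ) : ℝ) ≤ ((e : ℝ) + 2 + j) ^ j := by
    rw [Nat.choose_symm_add]
    exact_mod_cast Nat.choose_le_pow (e + 2 + j) j
  have h2 : 1 / (p : ℝ) ^ e ≤ (1 / 2) ^ e := by
    rw [one_div_pow]
    apply one_div_le_one_div_of_le (by positivity); gcongr
  push_cast
  calc (((e + 2 + j).choose (e + 2) : ℕ) : ℝ) * (((e + 2 + j).choose (e + 2) : ℕ) : ℝ) /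
        (p : ℝ) ^ (e + 2)
      = 1 / (p : ℝ) ^ 2 * ((((e + 2 + j).choose (e + 2) : ℕ) : ℝ) *
          (((e + 2 + j).choose (e + 2) : ℕ) : ℝ) * (1 / (p : ℝ) ^ e)) := by
        rw [pow_add]; field_simp
    _ ≤ 1 / (p : ℝ) ^ 2 * (((e : ℝ) + 2 + j) ^ j * ((e : ℝ) + 2 + j) ^ j * (1 / 2) ^ e) := by gcongr
    _ = _ := by ring

lemma summable_loc (hF : Dom (j + 1) F) (hG : Dom (j + 1) G) {p : ℕ} (hp : p.Prime) :
    Summable fun e => pr F G (p ^ e) := by
  rw [← summable_nat_add_iff 2]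
  exact Summable.of_nonneg_of_le (fun e => pr_nonneg hF hG _) (pr_tail_le hF hG hp)
    ((summable_cj j).mul_left _)

lemma loc_eq (hF : Dom (j + 1) F) (hG : Dom (j + 1) G) {p : ℕ} (hp : p.Prime) :
    ∃ ρ, 0 ≤ ρ ∧ ρ ≤ cj j / (p : ℝ) ^ 2 ∧ loc F G p = 1 + pr F G p + ρ := by
  refine ⟨∑' e, pr F G (p ^ (e + 2)), tsum_nonneg fun e => pr_nonneg hF hG _, ?_, ?_⟩
  · have := ((summable_nat_add_iff 2).2 (summable_loc hF hG hp)).tsum_le_tsum
      (pr_tail_le hF hG hp) ((summable_cj j).mul_left _)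
    rw [tsum_mul_left] at this
    refine this.trans (le_of_eq ?_)
    rw [cj]; ring
  · rw [loc, ← (summable_loc hF hG hp).sum_add_tsum_nat_add 2]
    simp [Finset.sum_range_succ, pr, hF.mult.map_one, hG.mult.map_one]

lemma pr_prime_le (hF : Dom (j + 1) F) (hG : Dom (j + 1) G) {p : ℕ} (hp : p.Prime) :
    pr F G p ≤ ((j : ℝ) + 1) ^ 2 / p := by
  refine (pr_le hF hG _).trans (le_of_eq ?_)
  have := dk_prime_pow j hp 1
  rw [pow_one] at this
  rw [pr, this]; simp; ring

lemma loc_pos (hF : Dom (j + 1) F) (hG : Dom (j + 1) G) {p : ℕ} (hp : p.Prime) :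
    0 < loc F G p := by
  obtain ⟨ρ, h0, -, h2⟩ := loc_eq hF hG hp
  have := pr_nonneg hF hG p
  linarith

noncomputable def cj' (j : ℕ) : ℝ := cj j + (((j : ℝ) + 1) ^ 2 + cj j) ^ 2

lemma log_loc_sub (hF : Dom (j + 1) F) (hG : Dom (j + 1) G) {p : ℕ} (hp : p.Prime) :
    ‖Real.log (loc F G p) - pr F G p‖ ≤ cj' j * (1 / (p : ℝ) ^ 2) := by
  obtain ⟨ρ, h0, h1, h2⟩ := loc_eq hF hG hp
  have hu := pr_nonneg hF hG p
  have hu' := pr_prime_le hF hG hp
  have hp1 : (1 : ℝ) ≤ p := by exact_mod_cast hp.one_le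
  have hc := cj_nonneg j
  set x := pr F G p + ρ with hx
  have hx0 : 0 ≤ x := by positivity
  have e : loc F G p = 1 + x := by rw [h2, hx]; ring
  have h3 : Real.log (1 + x) ≤ x := by
    have := Real.log_le_sub_one_of_pos (x := 1 + x) (by positivity); linarith
  have h4 : x - x ^ 2 ≤ Real.log (1 + x) := by
    have := Real.one_sub_inv_le_log_of_pos (x := 1 + x) (by positivity)
    refine le_trans ?_ this
    have e2 : 1 - (1 + x)⁻¹ = x / (1 + x) := by field_simp; ring
    rw [e2, le_div_iff₀ (by positivity)]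
    nlinarith [mul_nonneg hx0 (sq_nonneg x)]
  have h5 : x ≤ (((j : ℝ) + 1) ^ 2 + cj j) / p := by
    have : cj j / (p : ℝ) ^ 2 ≤ cj j / p := by
      gcongr; nlinarith
    rw [add_div]; linarith
  have h6 : x ^ 2 ≤ (((j : ℝ) + 1) ^ 2 + cj j) ^ 2 * (1 / (p : ℝ) ^ 2) := by
    calc x ^ 2 ≤ ((((j : ℝ) + 1) ^ 2 + cj j) / p) ^ 2 := by gcongr
      _ = _ := by field_simp
  have h7 : ρ ≤ cj j * (1 / (p : ℝ) ^ 2) := by rw [mul_one_div]; exact h1
  have h8 : 0 ≤ cj j * (1 / (p : ℝ) ^ 2) := by positivity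
  have h9 : 0 ≤ (((j : ℝ) + 1) ^ 2 + cj j) ^ 2 * (1 / (p : ℝ) ^ 2) := by positivity
  rw [e, Real.norm_eq_abs, abs_le, cj', add_mul]
  constructor <;> linarith

lemma summable_primes_inv_sq : Summable fun p : Nat.Primes => 1 / ((p : ℕ) : ℝ) ^ 2 :=
  (Real.summable_one_div_nat_pow.2 (by norm_num : 1 < 2)).subtype _

lemma summable_log_loc_sub (hF : Dom (j + 1) F) (hG : Dom (j + 1) G) :
    Summable fun p : Nat.Primes => Real.log (loc F G p) - pr F G p :=
  Summable.of_norm_bounded (summable_primes_inv_sq.mul_left (cj' j))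
    fun p => log_loc_sub hF hG p.2

lemma euler_fixed (hF : Dom (j + 1) F) (hG : Dom (j + 1) G)
    (hs : Summable fun p : Nat.Primes => pr F G p) :
    Summable (pr F G) ∧ ∑' n, pr F G n = Real.exp (∑' p : Nat.Primes, pr F G p) *
      Real.exp (∑' p : Nat.Primes, (Real.log (loc F G p) - pr F G p)) := by
  have h1 : pr F G 1 = 1 := by simp [pr, hF.mult.map_one, hG.mult.map_one]
  have h0 : pr F G 0 = 0 := by simp [pr]
  have hmul : ∀ {m n}, Nat.Coprime m n → pr F G (m * n) = pr F G m * pr F G n := by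
    intro m n hmn
    simp only [pr, hF.mult.map_mul_of_coprime hmn, hG.mult.map_mul_of_coprime hmn]
    push_cast; ring
  have hn : ∀ n, ‖pr F G n‖ = pr F G n := fun n => Real.norm_of_nonneg (pr_nonneg hF hG n)
  have hlog : Summable fun p : Nat.Primes => Real.log (loc F G p) := by
    simpa using hs.add (summable_log_loc_sub hF hG)
  have hlog0 : ∀ p : Nat.Primes, 0 ≤ Real.log (loc F G p) := fun p => by
    obtain ⟨ρ, h0, -, h2⟩ := loc_eq hF hG p.2
    have := pr_nonneg hF hG p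
    exact Real.log_nonneg (by linarith)
  have hsum : Summable (pr F G) := by
    refine summable_of_sum_range_le (pr_nonneg hF hG)
      (c := Real.exp (∑' p : Nat.Primes, Real.log (loc F G p))) fun N => ?_
    have key : HasSum (fun m : N.smoothNumbers => pr F G m) (∏ p ∈ N.primesBelow, loc F G p) :=
      (EulerProduct.summable_and_hasSum_smoothNumbers_prod_primesBelow_tsum h1 hmul
      (fun hp => by simpa only [hn] using summable_loc hF hG hp) N).2
    have h2 : ∑ n ∈ Finset.range N, pr F G n ≤ ∏ p ∈ N.primesBelow, loc F G p := by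
      have h3 : HasSum ((N.smoothNumbers).indicator (pr F G)) (∏ p ∈ N.primesBelow, loc F G p) :=
        (hasSum_subtype_iff_indicator (f := pr F G) (s := N.smoothNumbers)).1 key
      refine le_trans (le_of_eq ?_) (sum_le_hasSum (Finset.range N)
        (fun n _ => Set.indicator_nonneg (fun n _ => pr_nonneg hF hG n) n) h3)
      refine Finset.sum_congr rfl fun n hn => ?_
      rcases eq_or_ne n 0 with rfl | h
      · simp [Set.indicator, h0]
      · rw [Set.indicator_of_mem]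
        exact Nat.mem_smoothNumbers_of_lt (Nat.pos_of_ne_zero h) (Finset.mem_range.1 hn)
    refine h2.trans ?_
    have h4 : ∏ p ∈ N.primesBelow, loc F G p =
        Real.exp (∑ p ∈ N.primesBelow, Real.log (loc F G p)) := by
      rw [Real.exp_sum]
      exact Finset.prod_congr rfl fun p hp =>
        (Real.exp_log (loc_pos hF hG (Nat.prime_of_mem_primesBelow hp))).symm
    rw [h4]
    apply Real.exp_le_exp.2
    have h5 : ∑ p ∈ N.primesBelow, Real.log (loc F G p) =
        ∑ p ∈ N.primesBelow.subtype Nat.Prime, Real.log (loc F G (p : ℕ)) := by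
      rw [Finset.sum_subtype_of_mem (fun p => Real.log (loc F G p))
        (fun p hp => Nat.prime_of_mem_primesBelow hp)]
    rw [h5]
    have h9 := hlog.sum_le_tsum (show Finset Nat.Primes from N.primesBelow.subtype Nat.Prime)
      (fun p _ => hlog0 p)
    exact h9
  refine ⟨hsum, ?_⟩
  have h6 := EulerProduct.eulerProduct_hasProd h1 hmul (by simpa only [hn] using hsum) h0
  have h7 := Real.hasProd_of_hasSum_log (fun p : Nat.Primes => loc_pos hF hG p.2) hlog.hasSum
  have h8 : ∑' n, pr F G n = Real.exp (∑' p : Nat.Primes, Real.log (loc F G p)) :=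
    h6.tprod_eq.symm.trans h7.tprod_eq
  rw [h8, ← Real.exp_add, ← hs.tsum_add (summable_log_loc_sub hF hG)]
  simp

end

noncomputable def Rk (k : ℕ) : ℝ :=
  ∑' p : Nat.Primes, (Real.log (loc (dk k) (dk k) p) - pr (dk k) (dk k) p)

lemma euler_lim {j : ℕ} {F G : ℝ → ArithmeticFunction ℝ} (hF : Good (j + 1) F)
    (hG : Good (j + 1) G) :
    Tendsto (fun L => ∑' p : Nat.Primes, (Real.log (loc (F L) (G L) p) - pr (F L) (G L) p))
      atTop (𝓝 (Rk (j + 1))) := by
  have hpr : ∀ n, Tendsto (fun L => pr (F L) (G L) n) atTop (𝓝 (pr (dk (j + 1)) (dk (j + 1)) n)) :=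
    fun n => ((hF.lim n).mul (hG.lim n)).div_const _
  refine tendsto_tsum_of_dominated_convergence (summable_primes_inv_sq.mul_left (cj' j))
    (fun p => ?_) ?_
  · refine Tendsto.sub (Tendsto.log ?_ (loc_pos (dom_dk _) (dom_dk _) p.2).ne') (hpr p)
    refine tendsto_tsum_of_dominated_convergence
      (summable_loc (dom_dk (j + 1)) (dom_dk (j + 1)) p.2) (fun e => hpr _) ?_
    filter_upwards [eventually_gt_atTop 0] with L hL e
    rw [Real.norm_of_nonneg (pr_nonneg (hF.dom L hL) (hG.dom L hL) _)]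
    exact pr_le (hF.dom L hL) (hG.dom L hL) _
  · filter_upwards [eventually_gt_atTop 0] with L hL p
    exact log_loc_sub (hF.dom L hL) (hG.dom L hL) p.2

end Pool.Agent.Lib.MP_80d0cf_nt
end

-- part Pool.Agent.Lib.MP_80d0cf_nt.Prime
section

/-! Prime sums with the profile `exp (-a u) / (1 + lam u)`, `u = log p / L`. -/

namespace Pool.Agent.Lib.MP_80d0cf_nt

open Filter Topology Set MeasureTheory

noncomputable def bf (a lam L : ℝ) : ArithmeticFunction ℝ :=
  ⟨fun n => if n = 0 then 0 else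
    (n : ℝ) ^ (-(a / L)) * ∏ p ∈ n.primeFactors, (1 + lam * Real.log p / L)⁻¹, by simp⟩

lemma bf_apply (a lam L : ℝ) {n : ℕ} (hn : n ≠ 0) : bf a lam L n =
    (n : ℝ) ^ (-(a / L)) * ∏ p ∈ n.primeFactors, (1 + lam * Real.log p / L)⁻¹ := by
  simp [bf, hn]

lemma bf_prime (a lam L : ℝ) {p : ℕ} (hp : p.Prime) : bf a lam L p =
    (p : ℝ) ^ (-(a / L)) * (1 + lam * Real.log p / L)⁻¹ := by
  rw [bf_apply a lam L hp.ne_zero, hp.primeFactors, Finset.prod_singleton]

lemma bf_mult (a lam L : ℝ) : (bf a lam L).IsMultiplicative := by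
  rw [ArithmeticFunction.IsMultiplicative.iff_ne_zero]
  refine ⟨by simp [bf_apply], fun {m n} hm hn hmn => ?_⟩
  rw [bf_apply _ _ _ (mul_ne_zero hm hn), bf_apply _ _ _ hm, bf_apply _ _ _ hn,
    hmn.primeFactors_mul, Finset.prod_union hmn.disjoint_primeFactors, Nat.cast_mul,
    Real.mul_rpow (Nat.cast_nonneg m) (Nat.cast_nonneg n)]
  ring

lemma one_le_den {lam L : ℝ} (hlam : 0 ≤ lam) (hL : 0 < L) (p : ℕ) :
    1 ≤ 1 + lam * Real.log p / L := by
  have := Real.log_natCast_nonneg p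
  have : 0 ≤ lam * Real.log p / L := by positivity
  linarith

lemma good_bf {a lam : ℝ} (ha : 0 ≤ a) (hlam : 0 ≤ lam) : Good 1 (bf a lam) := by
  refine ⟨fun L hL => ⟨bf_mult a lam L, fun n => ?_, fun n => ?_⟩, fun n => ?_⟩
  · rcases eq_or_ne n 0 with rfl | hn
    · simp
    · rw [bf_apply _ _ _ hn]
      refine mul_nonneg (by positivity) (Finset.prod_nonneg fun p _ => ?_)
      have := one_le_den hlam hL p
      positivity
  · rcases eq_or_ne n 0 with rfl | hn
    · simp
    · rw [bf_apply _ _ _ hn, dk_one, zr_apply hn]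
      have h1 : (n : ℝ) ^ (-(a / L)) ≤ 1 :=
        Real.rpow_le_one_of_one_le_of_nonpos (by exact_mod_cast Nat.pos_of_ne_zero hn)
          (by have : 0 ≤ a / L := by positivity
              linarith)
      have h2 : ∏ p ∈ n.primeFactors, (1 + lam * Real.log p / L)⁻¹ ≤ 1 :=
        Finset.prod_le_one (fun p _ => by have := one_le_den hlam hL p; positivity)
          (fun p _ => inv_le_one_of_one_le₀ (one_le_den hlam hL p))
      have h3 : 0 ≤ ∏ p ∈ n.primeFactors, (1 + lam * Real.log p / L)⁻¹ :=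
        Finset.prod_nonneg fun p _ => by have := one_le_den hlam hL p; positivity
      nlinarith
  · rcases eq_or_ne n 0 with rfl | hn
    · simp
    · simp_rw [bf_apply _ _ _ hn, dk_one, zr_apply hn]
      have hn0 : (0 : ℝ) < n := by exact_mod_cast Nat.pos_of_ne_zero hn
      have h0 : ∀ c : ℝ, Tendsto (fun L : ℝ => c / L) atTop (𝓝 0) := fun c =>
        tendsto_const_nhds.div_atTop tendsto_id
      have h1 : Tendsto (fun L : ℝ => (n : ℝ) ^ (-(a / L))) atTop (𝓝 1) := by
        have := (Real.continuousAt_const_rpow (b := -0) hn0.ne').tendsto.comp (h0 a).neg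
        simpa [Function.comp_def] using this
      have h2 : Tendsto (fun L : ℝ => ∏ p ∈ n.primeFactors, (1 + lam * Real.log p / L)⁻¹) atTop
          (𝓝 (∏ p ∈ n.primeFactors, (1 : ℝ))) := by
        refine tendsto_finsetProd _ fun p _ => ?_
        have := ((h0 (lam * Real.log p)).const_add 1).inv₀ (by norm_num)
        simpa using this
      simpa using h1.mul h2

noncomputable def PP (s : ℝ) : ℝ := ∑' p : Nat.Primes, ((p : ℕ) : ℝ) ^ (-1 - s)

lemma summable_PP {s : ℝ} (hs : 0 < s) : Summable fun p : Nat.Primes => ((p : ℕ) : ℝ) ^ (-1 - s) :=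
  (Real.summable_nat_rpow.2 (by linarith : -1 - s < -1)).subtype _

lemma prime_one_le (p : Nat.Primes) : (1 : ℝ) ≤ ((p : ℕ) : ℝ) := by exact_mod_cast p.2.one_le

lemma PP_nonneg (s : ℝ) : 0 ≤ PP s := tsum_nonneg fun p => by positivity

lemma PP_anti {s t : ℝ} (hs : 0 < s) (hst : s ≤ t) : PP t ≤ PP s :=
  (summable_PP (by linarith)).tsum_le_tsum
    (fun p => Real.rpow_le_rpow_of_exponent_le (prime_one_le p) (by linarith)) (summable_PP hs)

lemma continuousOn_PP {s : ℝ} (hs : 0 < s) : ContinuousOn PP (Ici s) := by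
  refine continuousOn_tsum (fun p => ?_) (summable_PP hs) (fun p t ht => ?_)
  · have : ((p : ℕ) : ℝ) ≠ 0 := by have := prime_one_le p; positivity
    exact ((Real.continuous_const_rpow this).comp (by fun_prop)).continuousOn
  · rw [Real.norm_of_nonneg (by positivity)]
    exact Real.rpow_le_rpow_of_exponent_le (prime_one_le p) (by linarith [mem_Ici.1 ht])

lemma PP_lim_atTop : Tendsto (fun L : ℝ => PP (1 / L) + Real.log (1 / L)) atTop (𝓝 (-Rk 1)) := by
  have hF := good_bf (a := 1) (lam := 0) zero_le_one le_rfl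
  have hR := euler_lim (j := 0) hF good_zr
  have hpr : ∀ (L : ℝ) (n : ℕ), n ≠ 0 → pr (bf 1 0 L) zr n = (n : ℝ) ^ (-1 - 1 / L) := by
    intro L n hn
    have hn0 : (0 : ℝ) < n := by exact_mod_cast Nat.pos_of_ne_zero hn
    rw [pr, bf_apply _ _ _ hn, zr_apply hn, Real.rpow_sub hn0, Real.rpow_neg hn0.le,
      Real.rpow_neg hn0.le]
    simp
    field_simp
  have h1 : Tendsto (fun L : ℝ => 1 + 1 / L) atTop (𝓝[>] 1) := by
    refine tendsto_nhdsWithin_iff.2 ⟨?_, ?_⟩
    · simpa using (tendsto_const_nhds (x := (1 : ℝ)).div_atTop tendsto_id).const_add 1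
    · filter_upwards [eventually_gt_atTop 0] with L hL
      have : 0 < 1 / L := by positivity
      simp only [mem_Ioi]; linarith
  have h2 := (tendsto_sub_mul_tsum_nat_rpow.comp h1).log one_ne_zero
  rw [Real.log_one] at h2
  have h3 := h2.sub hR
  rw [zero_sub] at h3
  refine h3.congr' ?_
  filter_upwards [eventually_gt_atTop 0] with L hL
  have hL' : 0 < 1 / L := by positivity
  have e1 : (fun p : Nat.Primes => pr (bf 1 0 L) zr p) =
      fun p : Nat.Primes => ((p : ℕ) : ℝ) ^ (-1 - 1 / L) := funext fun p => hpr L p p.2.ne_zero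
  obtain ⟨-, h4⟩ := euler_fixed (j := 0) (hF.dom L hL) dom_zr (by rw [e1]; exact summable_PP hL')
  have e2 : ∑' n : ℕ, 1 / (n : ℝ) ^ (1 + 1 / L) = ∑' n, pr (bf 1 0 L) zr n := by
    refine tsum_congr fun n => ?_
    rcases eq_or_ne n 0 with rfl | hn
    · simp [pr, Real.zero_rpow (by positivity : (1 : ℝ) + L⁻¹ ≠ 0)]
    · rw [hpr L n hn, show -1 - 1 / L = -(1 + 1 / L) by ring, Real.rpow_neg (Nat.cast_nonneg n)]
      simp
  simp only [Function.comp_apply, add_sub_cancel_left]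
  rw [e2, h4, e1, Real.log_mul hL'.ne' (by positivity), Real.log_mul (by positivity) (by positivity),
    Real.log_exp, Real.log_exp, PP]
  ring

lemma PP_lim : Tendsto (fun s : ℝ => PP s + Real.log s) (𝓝[>] 0) (𝓝 (-Rk 1)) := by
  have := PP_lim_atTop.comp tendsto_inv_nhdsGT_zero
  simpa [Function.comp_def] using this

lemma PP_bound : ∃ C : ℝ, ∀ s : ℝ, 0 < s → |PP s + Real.log s| ≤ C + s := by
  have h := PP_lim.eventually (Metric.ball_mem_nhds (-Rk 1) one_pos)
  obtain ⟨s0, hs0, h2⟩ := (nhdsGT_basis (0 : ℝ)).eventually_iff.1 h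
  refine ⟨|Rk 1| + 1 + PP s0 + |Real.log s0|, fun s hs => ?_⟩
  have hP := PP_nonneg s0
  have ha := abs_nonneg (Rk 1)
  have hb := abs_nonneg (Real.log s0)
  rcases lt_or_ge s s0 with h3 | h3
  · have h4 := h2 (show s ∈ Ioo 0 s0 from ⟨hs, h3⟩)
    simp only [Real.dist_eq, sub_neg_eq_add] at h4
    have h5 := abs_lt.1 h4
    have h6 := le_abs_self (Rk 1)
    have h7 := neg_abs_le (Rk 1)
    rw [abs_le]; constructor <;> linarith [h5.1, h5.2]
  · have h4 := PP_anti hs0 h3
    have h5 := PP_nonneg s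
    have h6 : Real.log s0 ≤ Real.log s := Real.log_le_log hs0 h3
    have h7 : Real.log s ≤ s := (Real.log_le_sub_one_of_pos hs).trans (by linarith)
    have h8 := neg_abs_le (Real.log s0)
    rw [abs_le]; constructor <;> linarith

lemma integrableOn_pow_exp (j : ℕ) : IntegrableOn (fun t : ℝ => t ^ j * Real.exp (-t)) (Ioi 0) := by
  have := Real.GammaIntegral_convergent (s := j + 1) (by positivity)
  refine this.congr_fun (fun t _ => ?_) measurableSet_Ioi
  simp [mul_comm]

lemma integral_pow_exp_mul (j : ℕ) {r : ℝ} (hr : 0 < r) :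
    ∫ t in Ioi (0 : ℝ), t ^ j * Real.exp (-(r * t)) = j.factorial * (r⁻¹) ^ (j + 1) := by
  have := Real.integral_rpow_mul_exp_neg_mul_Ioi (a := j + 1) (by positivity) hr
  rw [Real.Gamma_nat_eq_factorial, add_sub_cancel_right] at this
  simp_rw [Real.rpow_natCast] at this
  rw [this, one_div, show ((j : ℝ) + 1) = ((j + 1 : ℕ) : ℝ) by push_cast; ring, Real.rpow_natCast]
  ring

lemma integral_pow_exp (j : ℕ) : ∫ t in Ioi (0 : ℝ), t ^ j * Real.exp (-t) = j.factorial := by
  simpa using integral_pow_exp_mul j one_pos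

noncomputable def sig (j : ℕ) (a lam L : ℝ) : ℝ :=
  ∑' p : Nat.Primes, ((p : ℕ) : ℝ) ^ (-1 - a / L) * ((1 + lam * Real.log (p : ℕ) / L)⁻¹) ^ (j + 1)

lemma summable_sig (j : ℕ) {a lam L : ℝ} (ha : 0 < a) (hlam : 0 ≤ lam) (hL : 0 < L) :
    Summable fun p : Nat.Primes =>
      ((p : ℕ) : ℝ) ^ (-1 - a / L) * ((1 + lam * Real.log (p : ℕ) / L)⁻¹) ^ (j + 1) := by
  refine Summable.of_nonneg_of_le (fun p => ?_) (fun p => ?_) (summable_PP (s := a / L) (by positivity))
  · have := one_le_den hlam hL p; positivity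
  · have h := one_le_den hlam hL p
    exact mul_le_of_le_one_right (by positivity)
      (pow_le_one₀ (by positivity) (inv_le_one_of_one_le₀ h))

lemma sig_eq (j : ℕ) {a lam L : ℝ} (ha : 0 < a) (hlam : 0 ≤ lam) (hL : 0 < L) :
    j.factorial * sig j a lam L =
      ∫ t in Ioi (0 : ℝ), t ^ j * Real.exp (-t) * PP ((a + lam * t) / L) := by
  set F : Nat.Primes → ℝ → ℝ := fun p t => ((p : ℕ) : ℝ) ^ (-1 - a / L) *
    (t ^ j * Real.exp (-((1 + lam * Real.log (p : ℕ) / L) * t))) with hF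
  have hint : ∀ p, Integrable (F p) (volume.restrict (Ioi 0)) := fun p => by
    refine Integrable.const_mul ?_ _
    refine (integrableOn_pow_exp j).mono' (by fun_prop) ?_
    refine (ae_restrict_iff' measurableSet_Ioi).2 (Eventually.of_forall fun t ht => ?_)
    have ht0 : 0 < t := ht
    have h := one_le_den hlam hL p
    rw [Real.norm_of_nonneg (by positivity)]
    gcongr
    nlinarith
  have hval : ∀ p, ∫ t in Ioi (0 : ℝ), F p t = j.factorial * (((p : ℕ) : ℝ) ^ (-1 - a / L) *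
      ((1 + lam * Real.log (p : ℕ) / L)⁻¹) ^ (j + 1)) := fun p => by
    have h := one_le_den hlam hL p
    rw [hF]; simp only
    rw [integral_const_mul, integral_pow_exp_mul j (by linarith)]; ring
  have hnorm : ∀ p, ∫ t in Ioi (0 : ℝ), ‖F p t‖ = ∫ t in Ioi (0 : ℝ), F p t := fun p =>
    setIntegral_congr_fun measurableSet_Ioi fun t ht => by
      have ht0 : 0 < t := ht
      exact Real.norm_of_nonneg (by rw [hF]; positivity)
  have key := hasSum_integral_of_summable_integral_norm hint (by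
    simp_rw [hnorm, hval]; exact (summable_sig j ha hlam hL).mul_left _)
  simp_rw [hval] at key
  rw [sig, ← tsum_mul_left, key.tsum_eq]
  refine setIntegral_congr_fun measurableSet_Ioi fun t _ => ?_
  simp only [PP, hF]
  rw [← tsum_mul_left]
  refine tsum_congr fun p => ?_
  have hp0 : (0 : ℝ) < ((p : ℕ) : ℝ) := by have := prime_one_le p; positivity
  rw [Real.rpow_def_of_pos hp0, Real.rpow_def_of_pos hp0, mul_left_comm, mul_assoc (t ^ j),
    ← Real.exp_add, ← Real.exp_add]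
  congr 2
  field_simp
  ring

noncomputable def cc (j : ℕ) (a lam : ℝ) : ℝ :=
  ∫ t in Ioi (0 : ℝ), t ^ j * Real.exp (-t) * Real.log (a + lam * t)

lemma integrableOn_lin (j : ℕ) (A B : ℝ) :
    IntegrableOn (fun t : ℝ => t ^ j * Real.exp (-t) * (A + B * t)) (Ioi 0) := by
  have h := ((integrableOn_pow_exp j).const_mul A).add ((integrableOn_pow_exp (j + 1)).const_mul B)
  refine IntegrableOn.congr_fun h (fun t _ => ?_) measurableSet_Ioi
  simp only [Pi.add_apply]; ring

lemma integrableOn_cc (j : ℕ) {a lam : ℝ} (ha : 0 < a) (hlam : 0 ≤ lam) :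
    IntegrableOn (fun t : ℝ => t ^ j * Real.exp (-t) * Real.log (a + lam * t)) (Ioi 0) := by
  refine (integrableOn_lin j (|Real.log a| + a) lam).mono' (by fun_prop) ?_
  refine (ae_restrict_iff' measurableSet_Ioi).2 (Eventually.of_forall fun t ht => ?_)
  have ht0 : 0 < t := ht
  have h1 : 0 ≤ lam * t := by positivity
  rw [norm_mul, Real.norm_of_nonneg (by positivity), Real.norm_eq_abs]
  gcongr
  have h2 : Real.log a ≤ Real.log (a + lam * t) := Real.log_le_log ha (by linarith)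
  have h3 : Real.log (a + lam * t) ≤ a + lam * t :=
    (Real.log_le_sub_one_of_pos (by positivity)).trans (by linarith)
  have h4 := neg_abs_le (Real.log a)
  have h5 := abs_nonneg (Real.log a)
  rw [abs_le]; constructor <;> linarith

lemma sig_lim (j : ℕ) {a lam : ℝ} (ha : 0 < a) (hlam : 0 ≤ lam) :
    Tendsto (fun L => j.factorial * sig j a lam L - j.factorial * Real.log L) atTop
      (𝓝 (j.factorial * (-Rk 1) - cc j a lam)) := by
  obtain ⟨C, hC⟩ := PP_bound
  have hmeas : ∀ L : ℝ, 0 < L → AEStronglyMeasurable (fun t : ℝ => t ^ j * Real.exp (-t) *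
      (PP ((a + lam * t) / L) + Real.log ((a + lam * t) / L))) (volume.restrict (Ioi 0)) := by
    intro L hL
    refine ContinuousOn.aestronglyMeasurable ?_ measurableSet_Ioi
    refine ContinuousOn.mul (by fun_prop) (ContinuousOn.add ?_ ?_)
    · refine (continuousOn_PP (s := a / L) (by positivity)).comp (by fun_prop) fun t ht => ?_
      have ht0 : 0 < t := ht
      simp only [mem_Ici]
      gcongr
      have : 0 ≤ lam * t := by positivity
      linarith
    · refine ContinuousOn.log (by fun_prop) fun t ht => ?_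
      have ht0 : 0 < t := ht
      positivity
  have hbd : ∀ L : ℝ, 1 ≤ L → ∀ᵐ t ∂(volume.restrict (Ioi (0 : ℝ))), ‖t ^ j * Real.exp (-t) *
      (PP ((a + lam * t) / L) + Real.log ((a + lam * t) / L))‖ ≤
      t ^ j * Real.exp (-t) * ((C + a) + lam * t) := by
    intro L hL
    refine (ae_restrict_iff' measurableSet_Ioi).2 (Eventually.of_forall fun t ht => ?_)
    have ht0 : 0 < t := ht
    rw [norm_mul, Real.norm_of_nonneg (by positivity), Real.norm_eq_abs]
    gcongr
    refine (hC _ (by positivity)).trans ?_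
    have : (a + lam * t) / L ≤ a + lam * t := div_le_self (by positivity) hL
    linarith
  have h1 : Tendsto (fun L : ℝ => ∫ t in Ioi (0 : ℝ), t ^ j * Real.exp (-t) *
      (PP ((a + lam * t) / L) + Real.log ((a + lam * t) / L))) atTop
      (𝓝 (∫ t in Ioi (0 : ℝ), t ^ j * Real.exp (-t) * (-Rk 1))) := by
    refine tendsto_integral_filter_of_dominated_convergence _ ?_ ?_
      (integrableOn_lin j (C + a) lam) ?_
    · filter_upwards [eventually_gt_atTop 0] with L hL using hmeas L hL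
    · filter_upwards [eventually_ge_atTop 1] with L hL using hbd L hL
    · refine (ae_restrict_iff' measurableSet_Ioi).2 (Eventually.of_forall fun t ht => ?_)
      have ht0 : 0 < t := ht
      refine Tendsto.const_mul _ (PP_lim.comp (tendsto_nhdsWithin_iff.2 ⟨?_, ?_⟩))
      · exact tendsto_const_nhds.div_atTop tendsto_id
      · filter_upwards [eventually_gt_atTop 0] with L hL
        simp only [mem_Ioi]; positivity
  rw [integral_mul_const, integral_pow_exp] at h1
  refine (h1.sub_const (cc j a lam)).congr' ?_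
  filter_upwards [eventually_ge_atTop 1] with L hL
  have hL0 : 0 < L := by linarith
  have i1 : IntegrableOn (fun t : ℝ => t ^ j * Real.exp (-t) *
      (PP ((a + lam * t) / L) + Real.log ((a + lam * t) / L))) (Ioi 0) :=
    (integrableOn_lin j (C + a) lam).mono' (hmeas L hL0) (hbd L hL)
  have i2 := integrableOn_cc j ha hlam
  have i3 : IntegrableOn (fun t : ℝ => t ^ j * Real.exp (-t) * Real.log L) (Ioi 0) :=
    (integrableOn_pow_exp j).mul_const _
  have e : (j.factorial : ℝ) * Real.log L =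
      ∫ t in Ioi (0 : ℝ), t ^ j * Real.exp (-t) * Real.log L := by
    rw [integral_mul_const, integral_pow_exp]
  have i4 : IntegrableOn (fun t : ℝ => t ^ j * Real.exp (-t) *
      (PP ((a + lam * t) / L) + Real.log ((a + lam * t) / L)) -
      t ^ j * Real.exp (-t) * Real.log (a + lam * t)) (Ioi 0) := i1.sub i2
  rw [sig_eq j ha hlam hL0, e, cc, ← integral_sub i1 i2, eq_sub_iff_add_eq,
    ← integral_add i4 i3]
  refine setIntegral_congr_fun measurableSet_Ioi fun t ht => ?_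
  have ht0 : 0 < t := ht
  rw [Real.log_div (by positivity) hL0.ne']
  ring

end Pool.Agent.Lib.MP_80d0cf_nt
end

-- part Pool.Agent.Lib.MP_80d0cf_nt.Consts
section

/-! Estimates for the constants `cc`. -/

namespace Pool.Agent.Lib.MP_80d0cf_nt

open Filter Topology Set MeasureTheory

lemma integrableOn_pow_exp_rsqrt (j : ℕ) :
    IntegrableOn (fun t : ℝ => t ^ j * Real.exp (-t) * t ^ (-(1 / 2 : ℝ))) (Ioi 0) := by
  have := Real.GammaIntegral_convergent (s := j + 1 / 2) (by positivity)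
  refine this.congr_fun (fun t ht => ?_) measurableSet_Ioi
  have ht0 : 0 < t := ht
  simp only
  rw [show (j : ℝ) + 1 / 2 - 1 = j + -(1 / 2) by ring, Real.rpow_add ht0, Real.rpow_natCast]
  ring

lemma integral_exp_rsqrt :
    ∫ t in Ioi (0 : ℝ), t ^ 0 * Real.exp (-t) * t ^ (-(1 / 2 : ℝ)) = √Real.pi := by
  rw [← Real.Gamma_one_half_eq, Real.Gamma_eq_integral (by norm_num)]
  refine setIntegral_congr_fun measurableSet_Ioi fun t _ => ?_
  simp only [pow_zero, one_mul]
  norm_num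

lemma integrableOn_pow_exp_log (j : ℕ) :
    IntegrableOn (fun t : ℝ => t ^ j * Real.exp (-t) * Real.log t) (Ioi 0) := by
  have h := ((integrableOn_pow_exp_rsqrt j).const_mul 2).add (integrableOn_pow_exp (j + 1))
  refine h.mono' (by fun_prop) ?_
  refine (ae_restrict_iff' measurableSet_Ioi).2 (Eventually.of_forall fun t ht => ?_)
  have ht0 : 0 < t := ht
  have h1 : |Real.log t| ≤ 2 * t ^ (-(1 / 2 : ℝ)) + t := by
    have h2 : Real.log t ≤ t := (Real.log_le_sub_one_of_pos ht0).trans (by linarith)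
    have h3 := Real.log_le_rpow_div (x := t⁻¹) (ε := 1 / 2) (by positivity) (by norm_num)
    rw [Real.log_inv, Real.inv_rpow ht0.le, ← Real.rpow_neg ht0.le] at h3
    have h4 : 0 < t ^ (-(1 / 2 : ℝ)) := by positivity
    rw [abs_le]; constructor <;> linarith
  rw [norm_mul, Real.norm_of_nonneg (by positivity), Real.norm_eq_abs]
  simp only [Pi.add_apply]
  calc t ^ j * Real.exp (-t) * |Real.log t|
      ≤ t ^ j * Real.exp (-t) * (2 * t ^ (-(1 / 2 : ℝ)) + t) := by gcongr
    _ = _ := by ring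

lemma integral_pow_exp_log (j : ℕ) :
    ∫ t in Ioi (0 : ℝ), t ^ j * Real.exp (-t) * Real.log t =
      j.factorial * (-Real.eulerMascheroniConstant + harmonic j) := by
  have h1 := Complex.hasDerivAt_GammaIntegral (s := (j : ℂ) + 1) (by simp; positivity)
  have h2 := Complex.hasDerivAt_Gamma_nat j
  have h3 : Complex.Gamma =ᶠ[𝓝 ((j : ℂ) + 1)] Complex.GammaIntegral := by
    have : {s : ℂ | 0 < s.re} ∈ 𝓝 ((j : ℂ) + 1) :=
      (isOpen_lt continuous_const Complex.continuous_re).mem_nhds (by simp; positivity)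
    filter_upwards [this] with s hs using Complex.Gamma_eq_integral hs
  have h4 := (h1.congr_of_eventuallyEq h3).unique h2
  have h5 : ∫ t in Ioi (0 : ℝ), (t : ℂ) ^ ((j : ℂ) + 1 - 1) * ((Real.log t : ℂ) * (Real.exp (-t) : ℂ)) =
      ((∫ t in Ioi (0 : ℝ), t ^ j * Real.exp (-t) * Real.log t : ℝ) : ℂ) := by
    rw [← integral_complex_ofReal]
    refine setIntegral_congr_fun measurableSet_Ioi fun t _ => ?_
    simp only [add_sub_cancel_right, Complex.cpow_natCast]
    push_cast; ring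
  rw [h5] at h4
  exact_mod_cast h4

lemma cc_half {κ lam : ℝ} (hκ : 0 < κ) (hlam : 0 ≤ lam) :
    cc 0 κ lam - cc 0 (κ / 2) lam ≤ Real.log 2 := by
  have i1 := integrableOn_cc 0 hκ hlam
  have i2 := integrableOn_cc 0 (a := κ / 2) (by positivity) hlam
  have i3 : IntegrableOn (fun t : ℝ => t ^ 0 * Real.exp (-t) * Real.log 2) (Ioi 0) :=
    (integrableOn_pow_exp 0).mul_const _
  have e : Real.log 2 = ∫ t in Ioi (0 : ℝ), t ^ 0 * Real.exp (-t) * Real.log 2 := by
    rw [integral_mul_const, integral_pow_exp]; simp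
  rw [cc, cc, ← integral_sub i1 i2, e]
  refine setIntegral_mono_on (i1.sub i2) i3 measurableSet_Ioi fun t ht => ?_
  have ht0 : 0 < t := ht
  have h0 : 0 ≤ lam * t := by positivity
  have h1 : Real.log (κ + lam * t) ≤ Real.log 2 + Real.log (κ / 2 + lam * t) := by
    rw [← Real.log_mul (by norm_num) (by positivity)]
    exact Real.log_le_log (by positivity) (by linarith)
  rw [← mul_sub]
  gcongr
  linarith

lemma cc_twist {κ lam : ℝ} (hκ : 0 < κ) (hlam : 0 < lam) :
    cc 1 (κ + κ) lam - cc 1 (κ / 2 + κ) lam ≤ κ / (2 * lam) := by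
  have i1 := integrableOn_cc 1 (a := κ + κ) (by positivity) hlam.le
  have i2 := integrableOn_cc 1 (a := κ / 2 + κ) (by positivity) hlam.le
  have i3 : IntegrableOn (fun t : ℝ => t ^ 0 * Real.exp (-t) * (κ / (2 * lam))) (Ioi 0) :=
    (integrableOn_pow_exp 0).mul_const _
  have e : κ / (2 * lam) = ∫ t in Ioi (0 : ℝ), t ^ 0 * Real.exp (-t) * (κ / (2 * lam)) := by
    rw [integral_mul_const, integral_pow_exp]; simp
  rw [cc, cc, ← integral_sub i1 i2, e]
  refine setIntegral_mono_on (i1.sub i2) i3 measurableSet_Ioi fun t ht => ?_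
  have ht0 : 0 < t := ht
  have h0 : 0 < lam * t := by positivity
  have h1 : Real.log (κ + κ + lam * t) - Real.log (κ / 2 + κ + lam * t) ≤ κ / (2 * (lam * t)) := by
    rw [← Real.log_div (by positivity) (by positivity)]
    refine (Real.log_le_sub_one_of_pos (by positivity)).trans ?_
    rw [div_sub_one (by positivity), div_le_div_iff₀ (by positivity) (by positivity)]
    nlinarith [mul_pos hκ h0, mul_pos hκ hκ]
  rw [← mul_sub]
  calc t ^ 1 * Real.exp (-t) * (Real.log (κ + κ + lam * t) - Real.log (κ / 2 + κ + lam * t))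
      ≤ t ^ 1 * Real.exp (-t) * (κ / (2 * (lam * t))) := by gcongr
    _ = t ^ 0 * Real.exp (-t) * (κ / (2 * lam)) := by field_simp

lemma cc_one_ge {a lam : ℝ} (ha : 0 < a) (hlam : 0 < lam) :
    Real.log lam + (1 - Real.eulerMascheroniConstant) ≤ cc 1 a lam := by
  have i1 := integrableOn_cc 1 ha hlam.le
  have i2 := integrableOn_pow_exp_log 1
  have i3 : IntegrableOn (fun t : ℝ => t ^ 1 * Real.exp (-t) * Real.log lam) (Ioi 0) :=
    (integrableOn_pow_exp 1).mul_const _
  have e : Real.log lam = ∫ t in Ioi (0 : ℝ), t ^ 1 * Real.exp (-t) * Real.log lam := by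
    rw [integral_mul_const, integral_pow_exp]; simp
  have e2 : 1 - Real.eulerMascheroniConstant =
      ∫ t in Ioi (0 : ℝ), t ^ 1 * Real.exp (-t) * Real.log t := by
    rw [integral_pow_exp_log]; simp; ring
  rw [cc, e2, e, ← integral_add i3 i2]
  refine setIntegral_mono_on (i3.add i2) i1 measurableSet_Ioi fun t ht => ?_
  have ht0 : 0 < t := ht
  rw [← mul_add, ← Real.log_mul hlam.ne' ht0.ne']
  gcongr
  linarith

lemma cc_zero_le {a lam : ℝ} (ha : 0 < a) (hlam : 0 < lam) :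
    cc 0 a lam ≤ Real.log lam - Real.eulerMascheroniConstant + 4 * √(a / lam) := by
  have i1 := integrableOn_cc 0 ha hlam.le
  have i2 := integrableOn_pow_exp_log 0
  have i3 : IntegrableOn (fun t : ℝ => t ^ 0 * Real.exp (-t) * Real.log lam) (Ioi 0) :=
    (integrableOn_pow_exp 0).mul_const _
  have i4 : IntegrableOn (fun t : ℝ => t ^ 0 * Real.exp (-t) * t ^ (-(1 / 2 : ℝ)) *
      (2 * √(a / lam))) (Ioi 0) := (integrableOn_pow_exp_rsqrt 0).mul_const _
  have i5 : IntegrableOn (fun t : ℝ => t ^ 0 * Real.exp (-t) * Real.log lam +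
      t ^ 0 * Real.exp (-t) * Real.log t) (Ioi 0) := i3.add i2
  have e : Real.log lam = ∫ t in Ioi (0 : ℝ), t ^ 0 * Real.exp (-t) * Real.log lam := by
    rw [integral_mul_const, integral_pow_exp]; simp
  have e2 : -Real.eulerMascheroniConstant =
      ∫ t in Ioi (0 : ℝ), t ^ 0 * Real.exp (-t) * Real.log t := by
    rw [integral_pow_exp_log]; simp
  have e3 : √Real.pi * (2 * √(a / lam)) = ∫ t in Ioi (0 : ℝ), t ^ 0 * Real.exp (-t) *
      t ^ (-(1 / 2 : ℝ)) * (2 * √(a / lam)) := by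
    rw [integral_mul_const, integral_exp_rsqrt]
  have hpi : √Real.pi ≤ 2 := by
    rw [Real.sqrt_le_left (by norm_num)]
    linarith [Real.pi_le_four]
  have h0 : 0 ≤ √(a / lam) := Real.sqrt_nonneg _
  have main : cc 0 a lam ≤ Real.log lam + -Real.eulerMascheroniConstant +
      √Real.pi * (2 * √(a / lam)) := by
    rw [cc, e3, e2, e, ← integral_add i3 i2, ← integral_add i5 i4]
    refine setIntegral_mono_on i1 (i5.add i4) measurableSet_Ioi fun t ht => ?_
    have ht0 : 0 < t := ht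
    set y := √(a / lam) * t ^ (-(1 / 2 : ℝ)) with hy
    have hy0 : 0 ≤ y := by positivity
    have hy2 : y ^ 2 = a / (lam * t) := by
      rw [hy, mul_pow, Real.sq_sqrt (by positivity), ← Real.rpow_natCast, ← Real.rpow_mul ht0.le]
      norm_num [Real.rpow_neg_one]
      field_simp
    have h1 : Real.log (a + lam * t) ≤ Real.log lam + Real.log t + 2 * y := by
      have h2 : a + lam * t ≤ lam * t * (1 + y) ^ 2 := by
        have : lam * t * y ^ 2 = a := by rw [hy2]; field_simp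
        nlinarith [mul_nonneg (mul_pos hlam ht0).le hy0]
      have h3 := Real.log_le_log (by positivity) h2
      rw [Real.log_mul (by positivity) (by positivity), Real.log_mul hlam.ne' ht0.ne',
        Real.log_pow] at h3
      have h4 := Real.log_le_sub_one_of_pos (x := 1 + y) (by positivity)
      push_cast at h3
      linarith
    calc t ^ 0 * Real.exp (-t) * Real.log (a + lam * t)
        ≤ t ^ 0 * Real.exp (-t) * (Real.log lam + Real.log t + 2 * y) := by gcongr
      _ = _ := by rw [hy]; ring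
  nlinarith

end Pool.Agent.Lib.MP_80d0cf_nt
end

-- part Pool.Agent.Lib.MP_80d0cf_nt.Zlim
section

/-! Asymptotics of the four diagonal sums. -/

namespace Pool.Agent.Lib.MP_80d0cf_nt

open Filter Topology

noncomputable def ak (k : ℕ) : ℝ := Real.exp (Rk k - (k : ℝ) ^ 2 * Rk 1)

noncomputable def st (j : ℕ) (a lam L : ℝ) (p : Nat.Primes) : ℝ :=
  ((p : ℕ) : ℝ) ^ (-1 - a / L) * ((1 + lam * Real.log (p : ℕ) / L)⁻¹) ^ (j + 1)

lemma bf_div (a lam L : ℝ) (p : Nat.Primes) : bf a lam L p / ((p : ℕ) : ℝ) = st 0 a lam L p := by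
  have hp0 : (0 : ℝ) < ((p : ℕ) : ℝ) := by have := prime_one_le p; positivity
  rw [bf_prime _ _ _ p.2, st, show -1 - a / L = -(a / L) + -1 by ring, Real.rpow_add hp0,
    Real.rpow_neg_one]
  ring

lemma bf_mul_div (a a' lam L : ℝ) (p : Nat.Primes) :
    bf a lam L p * bf a' lam L p / ((p : ℕ) : ℝ) = st 1 (a + a') lam L p := by
  have hp0 : (0 : ℝ) < ((p : ℕ) : ℝ) := by have := prime_one_le p; positivity
  rw [bf_prime _ _ _ p.2, bf_prime _ _ _ p.2, st,
    show -1 - (a + a') / L = -(a / L) + -(a' / L) + -1 by ring, Real.rpow_add hp0,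
    Real.rpow_add hp0, Real.rpow_neg_one]
  ring

lemma Zlim {j : ℕ} {F G : ℝ → ArithmeticFunction ℝ} (hF : Good (j + 1) F) (hG : Good (j + 1) G)
    {κ lam : ℝ} (hκ : 0 < κ) (hlam : 0 ≤ lam) (x1 x2 x3 x4 : ℝ)
    (hx : x1 + x2 + x3 + x4 = ((j : ℝ) + 1) ^ 2)
    (hp : ∀ L, 0 < L → ∀ p : Nat.Primes, pr (F L) (G L) p = x1 * st 0 κ lam L p +
      x2 * st 0 (κ / 2) lam L p + x3 * st 1 (κ + κ) lam L p + x4 * st 1 (κ / 2 + κ) lam L p) :
    (∀ L, 0 < L → Summable (pr (F L) (G L))) ∧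
    Tendsto (fun L => (∑' n, pr (F L) (G L) n) / L ^ ((j + 1) ^ 2)) atTop
      (𝓝 (ak (j + 1) * Real.exp (-(x1 * cc 0 κ lam + x2 * cc 0 (κ / 2) lam +
        x3 * cc 1 (κ + κ) lam + x4 * cc 1 (κ / 2 + κ) lam)))) := by
  have hs : ∀ L, 0 < L → HasSum (fun p : Nat.Primes => pr (F L) (G L) p)
      (x1 * sig 0 κ lam L + x2 * sig 0 (κ / 2) lam L + x3 * sig 1 (κ + κ) lam L +
        x4 * sig 1 (κ / 2 + κ) lam L) := by
    intro L hL
    simp_rw [hp L hL]
    exact ((((summable_sig 0 hκ hlam hL).hasSum.mul_left x1).add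
      ((summable_sig 0 (by positivity) hlam hL).hasSum.mul_left x2)).add
      ((summable_sig 1 (by positivity) hlam hL).hasSum.mul_left x3)).add
      ((summable_sig 1 (by positivity) hlam hL).hasSum.mul_left x4)
  refine ⟨fun L hL => (euler_fixed (hF.dom L hL) (hG.dom L hL) (hs L hL).summable).1, ?_⟩
  have l1 := sig_lim 0 hκ hlam
  have l2 := sig_lim 0 (a := κ / 2) (by positivity) hlam
  have l3 := sig_lim 1 (a := κ + κ) (by positivity) hlam
  have l4 := sig_lim 1 (a := κ / 2 + κ) (by positivity) hlam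
  simp only [Nat.factorial_zero, Nat.factorial_one, Nat.cast_one, one_mul] at l1 l2 l3 l4
  have l5 := (((((l1.const_mul x1).add (l2.const_mul x2)).add (l3.const_mul x3)).add
    (l4.const_mul x4)).add (euler_lim hF hG)).rexp
  have e : ak (j + 1) * Real.exp (-(x1 * cc 0 κ lam + x2 * cc 0 (κ / 2) lam +
        x3 * cc 1 (κ + κ) lam + x4 * cc 1 (κ / 2 + κ) lam)) =
      Real.exp (x1 * (-Rk 1 - cc 0 κ lam) + x2 * (-Rk 1 - cc 0 (κ / 2) lam) +
        x3 * (-Rk 1 - cc 1 (κ + κ) lam) + x4 * (-Rk 1 - cc 1 (κ / 2 + κ) lam) + Rk (j + 1)) := by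
    rw [ak, ← Real.exp_add]
    congr 1
    push_cast
    linear_combination (Rk 1) * hx
  rw [e]
  refine l5.congr' ?_
  filter_upwards [eventually_gt_atTop 0] with L hL
  rw [(euler_fixed (hF.dom L hL) (hG.dom L hL) (hs L hL).summable).2, (hs L hL).tsum_eq]
  have e2 : L ^ ((j + 1) ^ 2) = Real.exp (((j : ℝ) + 1) ^ 2 * Real.log L) := by
    rw [show ((j : ℝ) + 1) ^ 2 = (((j + 1) ^ 2 : ℕ) : ℝ) by push_cast; ring, Real.exp_nat_mul,
      Real.exp_log hL]
  rw [e2, ← Real.exp_add, ← Real.exp_sub]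
  congr 1
  linear_combination (-Real.log L) * hx

section
variable {κ lam : ℝ} (hκ : 0 < κ) (hlam : 0 ≤ lam) (j : ℕ)
include hκ hlam

lemma good_F1 : Good (j + 1 + 1) (fun L => zr * bf κ lam L ^ (j + 1)) := by
  have := good_zr.mul ((good_bf hκ.le hlam).pow (j + 1))
  rwa [add_comm 1 (j + 1)] at this

lemma good_G : Good (j + 1 + 1) (fun L => bf κ lam L ^ (j + 2)) := (good_bf hκ.le hlam).pow (j + 2)

lemma good_F2 : Good (j + 1 + 1) (fun L => zr * (bf (κ / 2) lam L * bf κ lam L ^ j)) := by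
  have := good_zr.mul ((good_bf (a := κ / 2) (by positivity) hlam).mul
    ((good_bf hκ.le hlam).pow j))
  rwa [show 1 + (1 + j) = j + 1 + 1 by ring] at this

lemma good_G3 : Good (j + 1 + 1) (fun L => bf (κ / 2) lam L * bf κ lam L ^ (j + 1)) := by
  have := (good_bf (a := κ / 2) (by positivity) hlam).mul ((good_bf hκ.le hlam).pow (j + 1))
  rwa [add_comm 1 (j + 1)] at this

lemma Z1 : (∀ L, 0 < L → Summable (pr (zr * bf κ lam L ^ (j + 1)) (bf κ lam L ^ (j + 2)))) ∧
    Tendsto (fun L => (∑' n, pr (zr * bf κ lam L ^ (j + 1)) (bf κ lam L ^ (j + 2)) n) /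
      L ^ ((j + 2) ^ 2)) atTop (𝓝 (ak (j + 2) * Real.exp (-((j + 2 : ℝ) * cc 0 κ lam +
        (j + 1 : ℝ) * (j + 2) * cc 1 (κ + κ) lam)))) := by
  have := Zlim (good_F1 hκ hlam j) (good_G hκ hlam j) hκ hlam (j + 2) 0 ((j + 1) * (j + 2)) 0
    (by push_cast; ring) (fun L hL p => by
      rw [← bf_div, ← bf_mul_div, pr, mul_apply_prime zr_mult (bf_mult _ _ _).pow p.2,
        pow_apply_prime (bf_mult _ _ _) p.2, pow_apply_prime (bf_mult _ _ _) p.2,
        zr_apply p.2.ne_zero]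
      push_cast; ring)
  simpa using this

lemma Z2 : (∀ L, 0 < L → Summable (pr (bf κ lam L ^ (j + 2)) (bf κ lam L ^ (j + 2)))) ∧
    Tendsto (fun L => (∑' n, pr (bf κ lam L ^ (j + 2)) (bf κ lam L ^ (j + 2)) n) /
      L ^ ((j + 2) ^ 2)) atTop (𝓝 (ak (j + 2) * Real.exp (-((j + 2 : ℝ) ^ 2 * cc 1 (κ + κ) lam)))) := by
  have := Zlim (good_G hκ hlam j) (good_G hκ hlam j) hκ hlam 0 0 ((j + 2) ^ 2) 0
    (by push_cast; ring) (fun L hL p => by
      rw [← bf_mul_div, pr, pow_apply_prime (bf_mult _ _ _) p.2]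
      push_cast; ring)
  simpa using this

lemma ZR : (∀ L, 0 < L →
      Summable (pr (zr * (bf (κ / 2) lam L * bf κ lam L ^ j)) (bf κ lam L ^ (j + 2)))) ∧
    Tendsto (fun L => (∑' n, pr (zr * (bf (κ / 2) lam L * bf κ lam L ^ j))
      (bf κ lam L ^ (j + 2)) n) / L ^ ((j + 2) ^ 2)) atTop
      (𝓝 (ak (j + 2) * Real.exp (-((j + 2 : ℝ) * cc 0 κ lam +
        (j : ℝ) * (j + 2) * cc 1 (κ + κ) lam + (j + 2 : ℝ) * cc 1 (κ / 2 + κ) lam)))) := by
  have := Zlim (good_F2 hκ hlam j) (good_G hκ hlam j) hκ hlam (j + 2) 0 (j * (j + 2)) (j + 2)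
    (by push_cast; ring) (fun L hL p => by
      rw [← bf_div, ← bf_mul_div, ← bf_mul_div, pr,
        mul_apply_prime zr_mult ((bf_mult _ _ _).mul (bf_mult _ _ _).pow) p.2,
        mul_apply_prime (bf_mult _ _ _) (bf_mult _ _ _).pow p.2,
        pow_apply_prime (bf_mult _ _ _) p.2, pow_apply_prime (bf_mult _ _ _) p.2,
        zr_apply p.2.ne_zero]
      push_cast; ring)
  simpa using this

lemma ZC : (∀ L, 0 < L →
      Summable (pr (zr * bf κ lam L ^ (j + 1)) (bf (κ / 2) lam L * bf κ lam L ^ (j + 1)))) ∧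
    Tendsto (fun L => (∑' n, pr (zr * bf κ lam L ^ (j + 1))
      (bf (κ / 2) lam L * bf κ lam L ^ (j + 1)) n) / L ^ ((j + 2) ^ 2)) atTop
      (𝓝 (ak (j + 2) * Real.exp (-((j + 1 : ℝ) * cc 0 κ lam + cc 0 (κ / 2) lam +
        (j + 1 : ℝ) ^ 2 * cc 1 (κ + κ) lam + (j + 1 : ℝ) * cc 1 (κ / 2 + κ) lam)))) := by
  have := Zlim (good_F1 hκ hlam j) (good_G3 hκ hlam j) hκ hlam (j + 1) 1 ((j + 1) ^ 2) (j + 1)
    (by push_cast; ring) (fun L hL p => by
      rw [← bf_div, ← bf_div, ← bf_mul_div, ← bf_mul_div, pr,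
        mul_apply_prime zr_mult (bf_mult _ _ _).pow p.2,
        mul_apply_prime (bf_mult _ _ _) (bf_mult _ _ _).pow p.2,
        pow_apply_prime (bf_mult _ _ _) p.2, zr_apply p.2.ne_zero]
      push_cast; ring)
  simpa using this

end

lemma hasProd_ak (j : ℕ) : HasProd (fun p : Nat.Primes => (1 - 1 / ((p : ℕ) : ℝ)) ^ ((j + 1) ^ 2) *
    ∑' e : ℕ, (((e + j).choose e : ℕ) : ℝ) ^ 2 / ((p : ℕ) : ℝ) ^ e) (ak (j + 1)) := by
  have h1 := (summable_log_loc_sub (dom_dk (j + 1)) (dom_dk (j + 1))).hasSum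
  have h2 := (summable_log_loc_sub (dom_dk (0 + 1)) (dom_dk (0 + 1))).hasSum
  have h3 := (h1.sub (h2.mul_left (((j + 1 : ℕ) : ℝ) ^ 2))).rexp
  have e : ∀ p : Nat.Primes, (1 - 1 / ((p : ℕ) : ℝ)) ^ ((j + 1) ^ 2) *
      ∑' e : ℕ, (((e + j).choose e : ℕ) : ℝ) ^ 2 / ((p : ℕ) : ℝ) ^ e =
      Real.exp (Real.log (loc (dk (j + 1)) (dk (j + 1)) p) - pr (dk (j + 1)) (dk (j + 1)) p -
        ((j + 1 : ℕ) : ℝ) ^ 2 * (Real.log (loc (dk (0 + 1)) (dk (0 + 1)) p) -
          pr (dk (0 + 1)) (dk (0 + 1)) p)) := by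
    intro p
    have hp2 : (2 : ℝ) ≤ ((p : ℕ) : ℝ) := by exact_mod_cast p.2.two_le
    have a1 : loc (dk (j + 1)) (dk (j + 1)) p =
        ∑' e : ℕ, (((e + j).choose e : ℕ) : ℝ) ^ 2 / ((p : ℕ) : ℝ) ^ e := by
      refine tsum_congr fun e => ?_
      rw [pr, dk_prime_pow j p.2]; push_cast; ring
    have hlt : 1 / ((p : ℕ) : ℝ) < 1 := by rw [div_lt_one (by positivity)]; linarith
    have a2 : loc (dk (0 + 1)) (dk (0 + 1)) p = (1 - 1 / ((p : ℕ) : ℝ))⁻¹ := by
      rw [← tsum_geometric_of_lt_one (by positivity) hlt]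
      refine tsum_congr fun e => ?_
      rw [pr, dk_prime_pow 0 p.2]; simp
    have a3 : pr (dk (j + 1)) (dk (j + 1)) p = ((j + 1 : ℕ) : ℝ) ^ 2 / ((p : ℕ) : ℝ) := by
      have := dk_prime_pow j p.2 1
      rw [pow_one] at this
      rw [pr, this]; simp; ring
    have a4 : pr (dk (0 + 1)) (dk (0 + 1)) p = 1 / ((p : ℕ) : ℝ) := by
      have := dk_prime_pow 0 p.2 1
      rw [pow_one] at this
      rw [pr, this]; simp
    have a5 := loc_pos (dom_dk (j + 1)) (dom_dk (j + 1)) p.2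
    rw [← a1, a2, a3, a4, Real.log_inv]
    have a6 : Real.log (loc (dk (j + 1)) (dk (j + 1)) p) - ((j + 1 : ℕ) : ℝ) ^ 2 / ((p : ℕ) : ℝ) -
        ((j + 1 : ℕ) : ℝ) ^ 2 * (-Real.log (1 - 1 / ((p : ℕ) : ℝ)) - 1 / ((p : ℕ) : ℝ)) =
        (((j + 1) ^ 2 : ℕ) : ℝ) * Real.log (1 - 1 / ((p : ℕ) : ℝ)) +
          Real.log (loc (dk (j + 1)) (dk (j + 1)) p) := by push_cast; ring
    rw [a6, Real.exp_add, Real.exp_nat_mul, Real.exp_log (by linarith), Real.exp_log a5]
  simp_rw [e]
  exact h3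

end Pool.Agent.Lib.MP_80d0cf_nt
end
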