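import Mathlib
import Pool.Agent.Lib.MP_80d0cf_nt.Zlim

-- part Pool.Agent.Lib.MP_80d0cf_nt.ZetaBound
section

/-! Polynomial growth of the zeta function in the strip `1/2 ≤ Re s ≤ 2`. -/

namespace Pool.Agent.Lib.MP_80d0cf_nt

open Complex Filter Topology Set

noncomputable def hterm (n : ℕ) (s : ℂ) : ℂ :=
  (s - 1) * ((n : ℂ) + 1) ^ (-s) + ((n : ℂ) + 2) ^ (1 - s) - ((n : ℂ) + 1) ^ (1 - s)

lemma hasDerivAt_ofReal_cpow' (s : ℂ) {u : ℝ} (hu : 0 < u) :
    HasDerivAt (fun x : ℝ => (x : ℂ) ^ s) (s * (u : ℂ) ^ (s - 1)) u := by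
  have h1 : HasDerivAt (fun z : ℂ => z ^ s) (s * (u : ℂ) ^ (s - 1)) (u : ℂ) := by
    have := (Complex.hasStrictDerivAt_cpow_const (x := (u : ℂ)) (c := s)
      (by simp [slitPlane, hu])).hasDerivAt
    simpa using this
  exact h1.comp_ofReal

lemma cpow_sub_le (s : ℂ) (hs : 0 ≤ s.re) {a u : ℝ} (ha : 0 < a) (hu : u ∈ Icc a (a + 1)) :
    ‖(u : ℂ) ^ (-s) - (a : ℂ) ^ (-s)‖ ≤ ‖s‖ * a ^ (-s.re - 1) := by
  have key := Convex.norm_image_sub_le_of_norm_hasDerivWithin_le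
    (f := fun x : ℝ => (x : ℂ) ^ (-s)) (f' := fun x : ℝ => (-s) * (x : ℂ) ^ (-s - 1))
    (s := Icc a (a + 1)) (C := ‖s‖ * a ^ (-s.re - 1)) (x := a) (y := u)
    (fun x hx => (hasDerivAt_ofReal_cpow' (-s) (lt_of_lt_of_le ha hx.1)).hasDerivWithinAt)
    (fun x hx => by
      have hx0 : 0 < x := lt_of_lt_of_le ha hx.1
      rw [norm_mul, norm_neg, Complex.norm_cpow_eq_rpow_re_of_pos hx0]
      gcongr
      simp only [sub_re, neg_re, one_re]
      exact Real.rpow_le_rpow_of_nonpos ha hx.1 (by linarith))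
    (convex_Icc _ _) (left_mem_Icc.2 (by linarith)) hu
  refine key.trans ?_
  have : ‖u - a‖ ≤ 1 := by
    rw [Real.norm_eq_abs, abs_le]; constructor <;> linarith [hu.1, hu.2]
  have h0 : 0 ≤ ‖s‖ * a ^ (-s.re - 1) := by positivity
  nlinarith

lemma norm_hterm_le (n : ℕ) (s : ℂ) (hs : 0 ≤ s.re) :
    ‖hterm n s‖ ≤ ‖s - 1‖ * ‖s‖ * ((n : ℝ) + 1) ^ (-s.re - 1) := by
  set a : ℝ := (n : ℝ) + 1 with ha_def
  have ha : 0 < a := by positivity
  have key := Convex.norm_image_sub_le_of_norm_hasDerivWithin_le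
    (f := fun x : ℝ => (x : ℂ) ^ (1 - s) - (1 - s) * (a : ℂ) ^ (-s) * (x : ℂ))
    (f' := fun x : ℝ => (1 - s) * ((x : ℂ) ^ (-s) - (a : ℂ) ^ (-s)))
    (s := Icc a (a + 1)) (C := ‖s - 1‖ * ‖s‖ * a ^ (-s.re - 1)) (x := a) (y := a + 1)
    (fun x hx => by
      have h1 := hasDerivAt_ofReal_cpow' (1 - s) (lt_of_lt_of_le ha hx.1)
      have h2 : HasDerivAt (fun x : ℝ => (1 - s) * (a : ℂ) ^ (-s) * (x : ℂ))
          ((1 - s) * (a : ℂ) ^ (-s) * 1) x :=
        (Complex.ofRealCLM.hasDerivAt (x := x)).const_mul _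
      have h3 := h1.fun_sub h2
      have e : (1 - s - 1) = -s := by ring
      rw [e] at h3
      exact (h3.congr_deriv (by ring)).hasDerivWithinAt)
    (fun x hx => by
      rw [norm_mul, mul_assoc, ← norm_neg (1 - s), neg_sub]
      gcongr
      exact cpow_sub_le s hs ha hx)
    (convex_Icc _ _) (left_mem_Icc.2 (by linarith)) (right_mem_Icc.2 (by linarith))
  have e1 : hterm n s = (((a + 1 : ℝ) : ℂ) ^ (1 - s) - (1 - s) * (a : ℂ) ^ (-s) * ((a + 1 : ℝ) : ℂ))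
      - ((a : ℂ) ^ (1 - s) - (1 - s) * (a : ℂ) ^ (-s) * (a : ℂ)) := by
    have e2 : ((a + 1 : ℝ) : ℂ) = (n : ℂ) + 2 := by rw [ha_def]; push_cast; ring
    have e3 : (a : ℂ) = (n : ℂ) + 1 := by rw [ha_def]; push_cast; ring
    rw [e2, e3, hterm]; ring
  rw [e1]
  simpa using key

lemma differentiable_hterm (n : ℕ) : Differentiable ℂ (hterm n) := by
  have h1 : ((n : ℂ) + 1) ≠ 0 := by exact_mod_cast Nat.succ_ne_zero n
  have h2 : ((n : ℂ) + 2) ≠ 0 := by exact_mod_cast Nat.succ_ne_zero (n + 1)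
  unfold hterm
  intro s
  have a1 : DifferentiableAt ℂ (fun s : ℂ => ((n : ℂ) + 1) ^ (-s)) s :=
    DifferentiableAt.const_cpow (by fun_prop) (Or.inl h1)
  have a2 : DifferentiableAt ℂ (fun s : ℂ => ((n : ℂ) + 2) ^ (1 - s)) s :=
    DifferentiableAt.const_cpow (by fun_prop) (Or.inl h2)
  have a3 : DifferentiableAt ℂ (fun s : ℂ => ((n : ℂ) + 1) ^ (1 - s)) s :=
    DifferentiableAt.const_cpow (by fun_prop) (Or.inl h1)
  exact (((differentiableAt_id.sub_const 1).mul a1).add a2).sub a3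

lemma summable_rpow_succ {a : ℝ} (ha : a < -1) : Summable (fun n : ℕ => ((n : ℝ) + 1) ^ a) := by
  have := (summable_nat_add_iff 1).2 (Real.summable_nat_rpow.2 ha)
  simpa using this

lemma tsum_hterm_of_lt (s : ℂ) (hs : 1 < s.re) : ∑' n, hterm n s = riemannZeta₁ s - 1 := by
  have hs1 : s ≠ 1 := by rintro rfl; simp at hs
  have hz : HasSum (fun n : ℕ => ((n : ℂ) + 1) ^ (-s)) (riemannZeta s) := by
    rw [zeta_eq_tsum_one_div_nat_add_one_cpow hs]
    have hsum : Summable (fun n : ℕ => 1 / ((n : ℂ) + 1) ^ s) := by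
      have := (summable_nat_add_iff 1).2 (Complex.summable_one_div_nat_cpow.2 hs)
      simpa using this
    simpa [Complex.cpow_neg] using hsum.hasSum
  have hsum : Summable (fun n => hterm n s) := by
    refine Summable.of_norm_bounded (g := fun n : ℕ => ‖s - 1‖ * ‖s‖ * ((n : ℝ) + 1) ^ (-s.re - 1))
      ((summable_rpow_succ (by linarith)).mul_left _) (fun n => norm_hterm_le n s (by linarith))
  have ht : Summable (fun n : ℕ => ((n : ℂ) + 2) ^ (1 - s) - ((n : ℂ) + 1) ^ (1 - s)) := by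
    have := hsum.sub (hz.summable.mul_left (s - 1))
    refine this.congr (fun n => ?_)
    unfold hterm; ring
  have hlim : Tendsto (fun N : ℕ => ((N : ℂ) + 1) ^ (1 - s)) atTop (𝓝 0) := by
    rw [tendsto_zero_iff_norm_tendsto_zero]
    have e : (fun N : ℕ => ‖((N : ℂ) + 1) ^ (1 - s)‖) = fun N : ℕ => ((N : ℝ) + 1) ^ (-(s.re - 1)) := by
      funext N
      have : ((N : ℂ) + 1) = (((N : ℝ) + 1 : ℝ) : ℂ) := by push_cast; ring
      rw [this, Complex.norm_cpow_eq_rpow_re_of_pos (by positivity)]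
      simp
    rw [e]
    exact (tendsto_rpow_neg_atTop (by linarith)).comp
      (tendsto_atTop_add_const_right _ 1 tendsto_natCast_atTop_atTop)
  have ht' : HasSum (fun n : ℕ => ((n : ℂ) + 2) ^ (1 - s) - ((n : ℂ) + 1) ^ (1 - s)) (-1) := by
    rw [ht.hasSum_iff_tendsto_nat]
    have e : (fun N : ℕ => ∑ n ∈ Finset.range N, (((n : ℂ) + 2) ^ (1 - s) - ((n : ℂ) + 1) ^ (1 - s)))
        = fun N : ℕ => ((N : ℂ) + 1) ^ (1 - s) - 1 := by
      funext N
      induction N with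
      | zero => simp
      | succ N ih => rw [Finset.sum_range_succ, ih]; push_cast; ring_nf
    rw [e]
    simpa using hlim.sub_const 1
  have h3 := (hz.mul_left (s - 1)).add ht'
  have e : (fun n => hterm n s) = fun n : ℕ => (s - 1) * ((n : ℂ) + 1) ^ (-s) +
      (((n : ℂ) + 2) ^ (1 - s) - ((n : ℂ) + 1) ^ (1 - s)) := by
    funext n; unfold hterm; ring
  rw [e, h3.tsum_eq, riemannZeta_eq_inv_sub_mul hs1]
  have : s - 1 ≠ 0 := sub_ne_zero.2 hs1
  field_simp
  ring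

lemma differentiableOn_tsum_hterm :
    DifferentiableOn ℂ (fun s => ∑' n, hterm n s) {s : ℂ | 1 / 4 < s.re} := by
  intro s hs
  set U : Set ℂ := {s : ℂ | 1 / 4 < s.re} ∩ Metric.ball 0 (‖s‖ + 1) with hU
  have hUo : IsOpen U :=
    (isOpen_lt continuous_const Complex.continuous_re).inter Metric.isOpen_ball
  have hsU : s ∈ U := ⟨hs, by simp⟩
  have hd : DifferentiableOn ℂ (fun s => ∑' n, hterm n s) U := by
    refine differentiableOn_tsum_of_summable_norm
      (u := fun n : ℕ => (‖s‖ + 2) * (‖s‖ + 1) * ((n : ℝ) + 1) ^ (-(5 / 4 : ℝ)))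
      ((summable_rpow_succ (by norm_num)).mul_left _)
      (fun n => (differentiable_hterm n).differentiableOn) hUo ?_
    intro n w hw
    have hw1 : 1 / 4 < w.re := hw.1
    have hw2 : ‖w‖ < ‖s‖ + 1 := by simpa using hw.2
    refine (norm_hterm_le n w (by linarith)).trans ?_
    have h1 : ‖w - 1‖ ≤ ‖s‖ + 2 := by
      have := norm_sub_le w 1
      simp at this; linarith
    have h2 : ((n : ℝ) + 1) ^ (-w.re - 1) ≤ ((n : ℝ) + 1) ^ (-(5 / 4 : ℝ)) :=
      Real.rpow_le_rpow_of_exponent_le (by simp) (by linarith)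
    gcongr
  exact ((hd s hsU).differentiableAt (hUo.mem_nhds hsU)).differentiableWithinAt

lemma tsum_hterm (s : ℂ) (hs : 1 / 4 < s.re) : ∑' n, hterm n s = riemannZeta₁ s - 1 := by
  have hV : IsOpen {s : ℂ | 1 / 4 < s.re} := isOpen_lt continuous_const Complex.continuous_re
  have h1 : AnalyticOnNhd ℂ (fun s => ∑' n, hterm n s) {s : ℂ | 1 / 4 < s.re} :=
    differentiableOn_tsum_hterm.analyticOnNhd hV
  have h2 : AnalyticOnNhd ℂ (fun s => riemannZeta₁ s - 1) {s : ℂ | 1 / 4 < s.re} :=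
    (differentiable_riemannZeta₁.sub_const 1).differentiableOn.analyticOnNhd hV
  have hc : IsPreconnected {s : ℂ | 1 / 4 < s.re} := (convex_halfSpace_re_gt _).isPreconnected
  have h3 : (fun s => ∑' n, hterm n s) =ᶠ[𝓝 (2 : ℂ)] (fun s => riemannZeta₁ s - 1) := by
    have : {s : ℂ | 1 < s.re} ∈ 𝓝 (2 : ℂ) :=
      (isOpen_lt continuous_const Complex.continuous_re).mem_nhds (by simp)
    filter_upwards [this] with s hs using tsum_hterm_of_lt s hs
  exact h1.eqOn_of_preconnected_of_eventuallyEq h2 hc (z₀ := 2) (by simp; norm_num) h3 hs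

/-- Polynomial growth of zeta. -/
lemma zeta_bound : ∃ C : ℝ, 0 < C ∧ ∀ s : ℂ, 1 / 2 ≤ s.re → 1 ≤ ‖s - 1‖ →
    ‖riemannZeta s‖ ≤ C * (1 + ‖s‖) := by
  set K : ℝ := ∑' n : ℕ, ((n : ℝ) + 1) ^ (-(3 / 2 : ℝ)) with hK
  have hK0 : 0 ≤ K := tsum_nonneg (fun n => by positivity)
  refine ⟨1 + K, by positivity, fun s hs hs1 => ?_⟩
  have hne : s ≠ 1 := by rintro rfl; simp at hs1; linarith
  have hsum : Summable (fun n : ℕ => ((n : ℝ) + 1) ^ (-(3 / 2 : ℝ))) :=
    summable_rpow_succ (by norm_num)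
  have hb : ‖∑' n, hterm n s‖ ≤ ‖s - 1‖ * ‖s‖ * K := by
    rw [hK, ← tsum_mul_left]
    refine tsum_of_norm_bounded (hsum.mul_left _).hasSum (fun n => ?_)
    refine (norm_hterm_le n s (by linarith)).trans ?_
    gcongr
    · simp
    · linarith
  rw [tsum_hterm s (by linarith)] at hb
  have h1 : ‖riemannZeta₁ s‖ ≤ 1 + ‖s - 1‖ * ‖s‖ * K := by
    have := norm_add_le (riemannZeta₁ s - 1) 1
    simp at this; linarith
  rw [riemannZeta_eq_inv_sub_mul hne, norm_mul, norm_inv]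
  have hp : 0 < ‖s - 1‖ := by linarith
  rw [inv_mul_le_iff₀ hp]
  have h0 : 0 ≤ ‖s‖ := norm_nonneg s
  nlinarith [mul_nonneg hK0 h0, mul_nonneg (mul_nonneg hK0 h0) hp.le, mul_nonneg h0 hp.le,
    mul_nonneg hK0 hp.le]

end Pool.Agent.Lib.MP_80d0cf_nt
end

-- part Pool.Agent.Lib.MP_80d0cf_nt.Gauss
section

/-! Gaussian weighted integrals of zeta against a pure frequency. -/

namespace Pool.Agent.Lib.MP_80d0cf_nt

open Complex Filter Topology Set MeasureTheory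

noncomputable def gw (H τ t : ℝ) : ℝ := Real.exp (-((t - τ) / H) ^ 2)

noncomputable def gam (H τ v : ℝ) : ℂ := cexp (τ * v * I - (H : ℂ) ^ 2 * (v : ℂ) ^ 2 / 4)

noncomputable def ker (H τ v : ℝ) (s : ℂ) : ℂ :=
  cexp ((s - 1 / 2) * v) * cexp (((s - (1 / 2 + τ * I)) / H) ^ 2)

lemma ker_quad {H : ℝ} (hH : 0 < H) (τ v σ y : ℝ) : ker H τ v (σ + y * I) =
    cexp ((-1 / (H : ℂ) ^ 2) * (y : ℂ) ^ 2 +
      (v * I + (2 * (σ - 1 / 2) * I + 2 * τ) / (H : ℂ) ^ 2) * y +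
      ((σ - 1 / 2) * v + ((σ - 1 / 2) - τ * I) ^ 2 / (H : ℂ) ^ 2)) := by
  rw [ker, ← Complex.exp_add]
  congr 1
  have : (H : ℂ) ≠ 0 := by exact_mod_cast hH.ne'
  field_simp
  ring_nf
  simp only [I_sq]
  ring

lemma neg_inv_sq_re {H : ℝ} (hH : 0 < H) : (-1 / (H : ℂ) ^ 2).re < 0 := by
  have : (-1 / (H : ℂ) ^ 2) = ((-1 / H ^ 2 : ℝ) : ℂ) := by push_cast; ring
  rw [this, ofReal_re]
  have : 0 < H ^ 2 := by positivity
  exact div_neg_of_neg_of_pos (by norm_num) this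

lemma integrable_ker {H : ℝ} (hH : 0 < H) (τ v σ : ℝ) :
    Integrable (fun y : ℝ => ker H τ v (σ + y * I)) := by
  simp_rw [ker_quad hH]
  exact integrable_cexp_quadratic' (neg_inv_sq_re hH) _ _

lemma integral_ker {H : ℝ} (hH : 0 < H) (τ v σ : ℝ) :
    ∫ y : ℝ, ker H τ v (σ + y * I) = ((√Real.pi * H : ℝ) : ℂ) * gam H τ v := by
  simp_rw [ker_quad hH]
  rw [integral_cexp_quadratic (neg_inv_sq_re hH)]
  have hH' : (H : ℂ) ≠ 0 := by exact_mod_cast hH.ne'
  congr 1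
  · have e : ((Real.pi : ℂ) / -(-1 / (H : ℂ) ^ 2)) = (((√Real.pi * H) ^ 2 : ℝ) : ℂ) := by
      rw [mul_pow, Real.sq_sqrt Real.pi_pos.le]
      push_cast
      field_simp
    have e2 : (1 / 2 : ℂ) = ((1 / 2 : ℝ) : ℂ) := by push_cast; ring
    rw [e, e2, ← Complex.ofReal_cpow (by positivity)]
    congr 1
    rw [← Real.sqrt_eq_rpow, Real.sqrt_sq (by positivity)]
  · rw [gam]
    congr 1
    field_simp
    ring_nf
    simp only [I_sq]
    ring

lemma norm_ker {H : ℝ} (hH : 0 < H) (τ v σ y : ℝ) : ‖ker H τ v (σ + y * I)‖ =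
    Real.exp ((σ - 1 / 2) * v + ((σ - 1 / 2) ^ 2 - (y - τ) ^ 2) / H ^ 2) := by
  rw [ker, ← Complex.exp_add, Complex.norm_exp]
  congr 1
  have e : (((σ : ℂ) + y * I - (1 / 2 + τ * I)) / H) ^ 2 =
      (((((σ - 1 / 2) ^ 2 - (y - τ) ^ 2) / H ^ 2 : ℝ)) : ℂ) +
        ((2 * (σ - 1 / 2) * (y - τ) / H ^ 2 : ℝ) : ℂ) * I := by
    have : (H : ℂ) ≠ 0 := by exact_mod_cast hH.ne'
    push_cast
    field_simp
    ring_nf
    simp only [I_sq]
    ring
  have e2 : ((σ : ℂ) + y * I - 1 / 2) * v = (((σ - 1 / 2) * v : ℝ) : ℂ) + ((y * v : ℝ) : ℂ) * I := by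
    push_cast; ring
  rw [e, e2]
  simp only [add_re, ofReal_re, mul_re, I_re, mul_zero, ofReal_im, I_im, mul_one, sub_self, add_zero]

lemma ker_half {H : ℝ} (hH : 0 < H) (τ v y : ℝ) :
    ker H τ v (((1 / 2 : ℝ) : ℂ) + y * I) = cexp (y * v * I) * (gw H τ y : ℂ) := by
  rw [ker, gw, Complex.ofReal_exp]
  have : (H : ℂ) ≠ 0 := by exact_mod_cast hH.ne'
  congr 2
  · push_cast; ring
  · push_cast
    field_simp
    ring_nf
    simp only [I_sq]
    ring

lemma norm_gam (H τ v : ℝ) : ‖gam H τ v‖ = Real.exp (-(H ^ 2 * v ^ 2 / 4)) := by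
  rw [gam, Complex.norm_exp]
  congr 1
  have e : (τ : ℂ) * v * I - (H : ℂ) ^ 2 * (v : ℂ) ^ 2 / 4 =
      ((-(H ^ 2 * v ^ 2 / 4) : ℝ) : ℂ) + ((τ * v : ℝ) : ℂ) * I := by push_cast; ring
  rw [e]
  simp only [add_re, ofReal_re, mul_re, I_re, mul_zero, ofReal_im, I_im, mul_one, sub_self, add_zero]

lemma gam_zero (H τ : ℝ) : gam H τ 0 = 1 := by simp [gam]

lemma differentiable_ker (H τ v : ℝ) : Differentiable ℂ (ker H τ v) := by
  unfold ker; fun_prop

lemma cpow_mul_ker (H τ v : ℝ) {a : ℝ} (ha : 0 < a) (s : ℂ) :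
    (a : ℂ) ^ (-s) * ker H τ v s = ((a ^ (-(1 / 2 : ℝ)) : ℝ) : ℂ) * ker H τ (v - Real.log a) s := by
  have ha' : (a : ℂ) ≠ 0 := by exact_mod_cast ha.ne'
  rw [ker, ker, Real.rpow_def_of_pos ha, Complex.ofReal_exp, Complex.cpow_def_of_ne_zero ha',
    ← Complex.ofReal_log ha.le]
  simp only [← Complex.exp_add]
  congr 1
  push_cast; ring

lemma integrable_gw {H : ℝ} (hH : 0 < H) (τ : ℝ) : Integrable (gw H τ) := by
  have := (integrable_ker hH τ 0 (1 / 2)).norm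
  refine this.congr (Eventually.of_forall fun y => ?_)
  simp only
  rw [ker_half hH]
  simp only [ofReal_zero, mul_zero, zero_mul, Complex.exp_zero, one_mul, norm_real, Real.norm_eq_abs]
  exact abs_of_pos (Real.exp_pos _)

lemma integral_gw {H : ℝ} (hH : 0 < H) (τ : ℝ) : ∫ y, gw H τ y = √Real.pi * H := by
  have := integral_ker hH τ 0 (1 / 2)
  simp_rw [ker_half hH, gam_zero] at this
  simp only [ofReal_zero, mul_zero, zero_mul, Complex.exp_zero, one_mul, mul_one] at this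
  rw [integral_complex_ofReal] at this
  exact_mod_cast this

lemma gw_pos (H τ t : ℝ) : 0 < gw H τ t := Real.exp_pos _

lemma gw_symm (H τ t : ℝ) : gw H τ t = gw H t τ := by
  unfold gw; congr 1; ring

lemma continuous_gw (H : ℝ) : Continuous (fun p : ℝ × ℝ => gw H p.1 p.2) := by
  unfold gw; fun_prop

/-- The zeta integral on the line `Re s = 2`. -/
lemma hasSum_line_two {H : ℝ} (hH : 0 < H) (τ v : ℝ) :
    HasSum (fun l : ℕ => ((√Real.pi * H : ℝ) : ℂ) *
        (((((l : ℝ) + 1) ^ (-(1 / 2 : ℝ)) : ℝ) : ℂ) * gam H τ (v - Real.log ((l : ℝ) + 1))))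
      (∫ y : ℝ, riemannZeta (((2 : ℝ) : ℂ) + y * I) * ker H τ v (((2 : ℝ) : ℂ) + y * I)) := by
  set F : ℕ → ℝ → ℂ := fun l y => ((((l : ℝ) + 1 : ℝ) : ℂ)) ^ (-(((2 : ℝ) : ℂ) + y * I)) *
    ker H τ v (((2 : ℝ) : ℂ) + y * I) with hF
  have hFe : ∀ l y, F l y = (((((l : ℝ) + 1) ^ (-(1 / 2 : ℝ)) : ℝ) : ℂ)) *
      ker H τ (v - Real.log ((l : ℝ) + 1)) (((2 : ℝ) : ℂ) + y * I) := fun l y =>
    cpow_mul_ker H τ v (by positivity) _
  have hint : ∀ l, Integrable (F l) := fun l => by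
    have : F l = fun y : ℝ => (((((l : ℝ) + 1) ^ (-(1 / 2 : ℝ)) : ℝ) : ℂ)) *
      ker H τ (v - Real.log ((l : ℝ) + 1)) (((2 : ℝ) : ℂ) + y * I) := funext (hFe l)
    rw [this]
    exact (integrable_ker hH τ _ 2).const_mul _
  have hnorm : ∀ l y, ‖F l y‖ = ((l : ℝ) + 1) ^ (-2 : ℝ) * ‖ker H τ v (((2 : ℝ) : ℂ) + y * I)‖ := by
    intro l y
    rw [hF]
    simp only
    rw [norm_mul, Complex.norm_cpow_eq_rpow_re_of_pos (by positivity)]
    simp
  have hsum : Summable fun l => ∫ y, ‖F l y‖ := by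
    simp_rw [hnorm, integral_const_mul]
    exact (summable_rpow_succ (by norm_num)).mul_right _
  have key := hasSum_integral_of_summable_integral_norm hint hsum
  have e1 : (fun l : ℕ => ∫ a, F l a) = (fun l : ℕ => ((√Real.pi * H : ℝ) : ℂ) *
        (((((l : ℝ) + 1) ^ (-(1 / 2 : ℝ)) : ℝ) : ℂ) * gam H τ (v - Real.log ((l : ℝ) + 1)))) := by
    funext l
    simp_rw [hFe]
    rw [integral_const_mul, integral_ker hH]
    ring
  have e2 : (fun a => ∑' i, F i a) = fun y : ℝ =>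
      riemannZeta (((2 : ℝ) : ℂ) + y * I) * ker H τ v (((2 : ℝ) : ℂ) + y * I) := by
    funext y
    rw [hF]
    simp only
    rw [tsum_mul_right, zeta_eq_tsum_one_div_nat_add_one_cpow (by simp)]
    congr 1
    refine tsum_congr fun l => ?_
    rw [Complex.cpow_neg]
    push_cast
    simp
  rw [e1, e2] at key
  exact key

lemma zeta_two_bound (y : ℝ) : ‖riemannZeta (((2 : ℝ) : ℂ) + y * I)‖ ≤ 2 := by
  rw [zeta_eq_tsum_one_div_nat_add_one_cpow (by simp)]
  have h : HasSum (fun n : ℕ => 1 / ((n : ℝ) + 1) ^ 2) (Real.pi ^ 2 / 6) := by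
    have := (hasSum_nat_add_iff' 1).2 hasSum_zeta_two
    simpa using this
  refine (tsum_of_norm_bounded h (fun n => ?_)).trans ?_
  · have : ((n : ℂ) + 1) = (((n : ℝ) + 1 : ℝ) : ℂ) := by push_cast; ring
    rw [norm_div, this, Complex.norm_cpow_eq_rpow_re_of_pos (by positivity)]
    simp
  · have := Real.pi_lt_d2
    have := Real.pi_pos
    nlinarith

end Pool.Agent.Lib.MP_80d0cf_nt
end

-- part Pool.Agent.Lib.MP_80d0cf_nt.Shift
section

/-! Contour shift from the critical line to `Re s = 2`. -/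

namespace Pool.Agent.Lib.MP_80d0cf_nt

open Complex Filter Topology Set MeasureTheory

lemma norm_ker_le {H τ D X v x y : ℝ} (hH : 1 ≤ H) (hX : 1 ≤ X) (hD : 0 ≤ D) (hv : v ≤ Real.log X)
    (hx1 : 1 / 2 ≤ x) (hx2 : x ≤ 2) (hy : D ≤ |y - τ|) :
    ‖ker H τ v (x + y * I)‖ ≤
      (X ^ 2 * Real.exp 3 * Real.exp (-(D ^ 2 / (2 * H ^ 2)))) * gw (2 * H) τ y := by
  have hH0 : 0 < H := by linarith
  rw [norm_ker hH0, gw]
  have hlog : 0 ≤ Real.log X := Real.log_nonneg hX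
  have e : X ^ 2 = Real.exp (2 * Real.log X) := by
    rw [show (2 : ℝ) * Real.log X = Real.log (X ^ 2) by simp, Real.exp_log (by positivity)]
  rw [e, ← Real.exp_add, ← Real.exp_add, ← Real.exp_add]
  apply Real.exp_le_exp.2
  have h1 : (x - 1 / 2) * v ≤ 2 * Real.log X := by nlinarith
  have h2 : D ^ 2 ≤ (y - τ) ^ 2 := by
    rw [← sq_abs (y - τ)]; gcongr
  have hH2 : 1 ≤ H ^ 2 := by nlinarith
  have h3 : (x - 1 / 2) ^ 2 / H ^ 2 ≤ 3 := by
    rw [div_le_iff₀ (by positivity)]; nlinarith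
  have h4 : -((y - τ) ^ 2 / H ^ 2) ≤ -(D ^ 2 / (2 * H ^ 2)) + -((y - τ) / (2 * H)) ^ 2 := by
    have e1 : D ^ 2 / (2 * H ^ 2) = (D ^ 2 / 2) / H ^ 2 := by field_simp
    have e2 : ((y - τ) / (2 * H)) ^ 2 = ((y - τ) ^ 2 / 4) / H ^ 2 := by field_simp; ring
    rw [e1, e2, ← neg_add, neg_le_neg_iff, ← add_div]
    gcongr
    nlinarith [sq_nonneg D]
  rw [sub_div]
  linarith

lemma gw_le_one (H τ t : ℝ) : gw H τ t ≤ 1 := by
  unfold gw; rw [Real.exp_le_one_iff]; simp [sq_nonneg]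

lemma continuous_zeta_line (σ : ℝ) (hσ : σ ≠ 1) :
    Continuous (fun y : ℝ => riemannZeta ((σ : ℂ) + y * I)) := by
  refine continuous_iff_continuousAt.2 fun y => ?_
  have hne : (σ : ℂ) + y * I ≠ 1 := by
    intro h
    have := congrArg Complex.re h
    simp at this
    exact hσ this
  exact ContinuousAt.comp (f := fun y : ℝ => (σ : ℂ) + y * I)
    (differentiableAt_riemannZeta hne).continuousAt (by fun_prop)

lemma shift : ∃ C : ℝ, 0 < C ∧ ∀ H T τ D X v : ℝ, 1 ≤ H → 1 ≤ X → 0 ≤ D → 1 + D ≤ τ →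
    τ + D ≤ T → v ≤ Real.log X →
    ‖(∫ y in (1 : ℝ)..T, riemannZeta (((1 / 2 : ℝ) : ℂ) + y * I) *
        ker H τ v (((1 / 2 : ℝ) : ℂ) + y * I)) -
      ∫ y : ℝ, riemannZeta (((2 : ℝ) : ℂ) + y * I) * ker H τ v (((2 : ℝ) : ℂ) + y * I)‖ ≤
      C * (T + 4) * X ^ 2 * H * Real.exp (-(D ^ 2 / (2 * H ^ 2))) := by
  obtain ⟨C0, hC0, hz⟩ := zeta_bound
  refine ⟨(3 * C0 + 8) * Real.exp 3, by positivity, ?_⟩
  intro H T τ D X v hH hX hD hτ1 hτ2 hv
  have hH0 : 0 < H := by linarith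
  have hT : 1 ≤ T := by linarith
  set E : ℝ := X ^ 2 * Real.exp 3 * Real.exp (-(D ^ 2 / (2 * H ^ 2))) with hE
  have hE0 : 0 < E := by positivity
  set f : ℂ → ℂ := fun s => riemannZeta s * ker H τ v s with hf
  have hdiff : DifferentiableOn ℂ f (uIcc (1 / 2 : ℝ) 2 ×ℂ uIcc (1 : ℝ) T) := by
    intro s hs
    have hs2 : s.im ∈ uIcc (1 : ℝ) T := hs.2
    rw [uIcc_of_le hT] at hs2
    have hne : s ≠ 1 := by
      rintro rfl
      have := hs2.1
      simp at this; linarith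
    exact ((differentiableAt_riemannZeta hne).mul
      (differentiable_ker H τ v s)).differentiableWithinAt
  have rect := integral_boundary_rect_eq_zero_of_differentiableOn f
    ⟨1 / 2, 1⟩ ⟨2, T⟩ hdiff
  simp only [smul_eq_mul] at rect
  have hor : ∀ y : ℝ, 1 ≤ y → y ≤ T → D ≤ |y - τ| →
      ‖∫ x : ℝ in (1 / 2 : ℝ)..2, f (x + y * I)‖ ≤ (C0 * (T + 4) * E) * |2 - 1 / 2| := by
    intro y hy1 hy2 hy
    refine intervalIntegral.norm_integral_le_of_norm_le_const fun x hx => ?_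
    rw [uIoc_of_le (by norm_num)] at hx
    have hk := norm_ker_le (τ := τ) hH hX hD hv hx.1.le hx.2 hy
    have hk' : ‖ker H τ v (x + y * I)‖ ≤ E :=
      hk.trans (mul_le_of_le_one_right hE0.le (gw_le_one _ _ _))
    have h1 : 1 ≤ ‖(x : ℂ) + y * I - 1‖ := by
      refine le_trans ?_ (Complex.abs_im_le_norm _)
      simp only [sub_im, add_im, ofReal_im, mul_im, ofReal_re, I_im, mul_one, I_re, mul_zero,
        add_zero, zero_add, one_im, sub_zero]
      exact hy1.trans (le_abs_self y)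
    have h2 : ‖(x : ℂ) + y * I‖ ≤ 2 + T := by
      refine (norm_add_le _ _).trans ?_
      simp only [norm_real, Real.norm_eq_abs, norm_mul, norm_I, mul_one]
      rw [abs_of_pos (by linarith [hx.1]), abs_of_pos (by linarith)]
      linarith [hx.2]
    have h3 := hz ((x : ℂ) + y * I) (by simpa using hx.1.le) h1
    rw [hf]
    simp only [norm_mul]
    have h4 : ‖riemannZeta ((x : ℂ) + y * I)‖ ≤ C0 * (T + 4) := by
      refine h3.trans ?_
      exact mul_le_mul_of_nonneg_left (by linarith) hC0.le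
    gcongr
  have hA := hor 1 le_rfl hT (by rw [abs_sub_comm, abs_of_nonneg (by linarith)]; linarith)
  have hB := hor T hT le_rfl (by rw [abs_of_nonneg (by linarith)]; linarith)
  have hv1 : ‖(∫ y in (1 : ℝ)..T, f (((1 / 2 : ℝ) : ℂ) + y * I)) -
      ∫ y in (1 : ℝ)..T, f (((2 : ℝ) : ℂ) + y * I)‖ ≤ 3 * C0 * (T + 4) * E := by
    have e : (∫ y in (1 : ℝ)..T, f (((1 / 2 : ℝ) : ℂ) + y * I)) -
      (∫ y in (1 : ℝ)..T, f (((2 : ℝ) : ℂ) + y * I)) =
      -I * ((∫ x : ℝ in (1 / 2 : ℝ)..2, f (x + (1 : ℝ) * I)) -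
        ∫ x : ℝ in (1 / 2 : ℝ)..2, f (x + T * I)) := by
      have hI : I * I = -1 := I_mul_I
      linear_combination I * rect + ((∫ y in (1 : ℝ)..T, f (((1 / 2 : ℝ) : ℂ) + y * I)) -
        (∫ y in (1 : ℝ)..T, f (((2 : ℝ) : ℂ) + y * I))) * hI
    rw [e, norm_mul, norm_neg, norm_I, one_mul]
    refine (norm_sub_le _ _).trans ?_
    have : |(2 : ℝ) - 1 / 2| = 3 / 2 := by norm_num [abs_of_pos]
    rw [this] at hA hB
    linarith
  have hint2 : Integrable (fun y : ℝ => f (((2 : ℝ) : ℂ) + y * I)) := by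
    refine Integrable.bdd_mul (c := 2) (integrable_ker hH0 τ v 2)
      (continuous_zeta_line 2 (by norm_num)).aestronglyMeasurable
      (Eventually.of_forall fun y => zeta_two_bound y)
  have htail : ‖(∫ y in (1 : ℝ)..T, f (((2 : ℝ) : ℂ) + y * I)) -
      ∫ y : ℝ, f (((2 : ℝ) : ℂ) + y * I)‖ ≤ 8 * H * E := by
    rw [intervalIntegral.integral_of_le hT,
      ← integral_add_compl (s := Ioc 1 T) measurableSet_Ioc hint2]
    simp only [sub_add_cancel_left, norm_neg]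
    have hgi : Integrable (fun y => 2 * E * gw (2 * H) τ y) :=
      (integrable_gw (by positivity) τ).const_mul _
    calc ‖∫ y in (Ioc 1 T)ᶜ, f (((2 : ℝ) : ℂ) + y * I)‖
        ≤ ∫ y in (Ioc 1 T)ᶜ, 2 * E * gw (2 * H) τ y := by
          refine norm_integral_le_of_norm_le hgi.integrableOn ?_
          refine (ae_restrict_iff' measurableSet_Ioc.compl).2 (Eventually.of_forall fun y hy => ?_)
          have hy' : D ≤ |y - τ| := by
            simp only [mem_compl_iff, mem_Ioc, not_and_or, not_lt, not_le] at hy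
            rcases hy with hy | hy
            · rw [abs_sub_comm, abs_of_nonneg (by linarith)]; linarith
            · rw [abs_of_nonneg (by linarith)]; linarith
          have hk := norm_ker_le (τ := τ) (x := 2) hH hX hD hv (by norm_num) le_rfl hy'
          rw [hf]
          simp only [norm_mul]
          have := zeta_two_bound y
          rw [mul_assoc]
          gcongr
      _ ≤ ∫ y, 2 * E * gw (2 * H) τ y :=
          setIntegral_le_integral hgi (Eventually.of_forall fun y => by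
            have := gw_pos (2 * H) τ y
            positivity)
      _ = 2 * E * (√Real.pi * (2 * H)) := by
          rw [integral_const_mul, integral_gw (by positivity)]
      _ ≤ 8 * H * E := by
          have : √Real.pi ≤ 2 := by
            rw [Real.sqrt_le_left (by norm_num)]
            linarith [Real.pi_le_four]
          have h5 : 0 ≤ E * H := by positivity
          nlinarith
  have tri := norm_sub_le_norm_sub_add_norm_sub
    (∫ y in (1 : ℝ)..T, f (((1 / 2 : ℝ) : ℂ) + y * I))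
    (∫ y in (1 : ℝ)..T, f (((2 : ℝ) : ℂ) + y * I)) (∫ y : ℝ, f (((2 : ℝ) : ℂ) + y * I))
  refine tri.trans ?_
  have e : (3 * C0 + 8) * Real.exp 3 * (T + 4) * X ^ 2 * H * Real.exp (-(D ^ 2 / (2 * H ^ 2))) =
      (3 * C0 + 8) * (T + 4) * H * E := by rw [hE]; ring
  rw [e]
  have h6 : 3 * C0 * (T + 4) * E ≤ 3 * C0 * (T + 4) * H * E := by
    have : 0 ≤ 3 * C0 * (T + 4) * E := by positivity
    nlinarith
  have h7 : 8 * H * E ≤ 8 * (T + 4) * H * E := by
    have : 0 ≤ H * E := by positivity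
    nlinarith
  nlinarith

end Pool.Agent.Lib.MP_80d0cf_nt
end

-- part Pool.Agent.Lib.MP_80d0cf_nt.Mean
section

/-! Gaussian mean values of Dirichlet polynomials, with and without a zeta factor. -/

namespace Pool.Agent.Lib.MP_80d0cf_nt

open Complex Filter Topology Set MeasureTheory
open scoped ComplexConjugate

noncomputable def dp (f : ℕ → ℝ) (N : ℕ) (t : ℝ) : ℂ :=
  ∑ n ∈ Finset.Icc 1 N, ((f n * (n : ℝ) ^ (-(1 / 2 : ℝ)) : ℝ) : ℂ) *
    cexp (-((t * Real.log n : ℝ) : ℂ) * I)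

lemma continuous_dp (f : ℕ → ℝ) (N : ℕ) : Continuous (dp f N) := by
  unfold dp; fun_prop

lemma dp_mul_conj {H : ℝ} (hH : 0 < H) (τ : ℝ) (f g : ℕ → ℝ) (N : ℕ) (t : ℝ) :
    dp f N t * conj (dp g N t) * (gw H τ t : ℂ) =
    ∑ m ∈ Finset.Icc 1 N, ∑ n ∈ Finset.Icc 1 N,
      ((f m * (m : ℝ) ^ (-(1 / 2 : ℝ)) * (g n * (n : ℝ) ^ (-(1 / 2 : ℝ))) : ℝ) : ℂ) *
        ker H τ (Real.log n - Real.log m) (((1 / 2 : ℝ) : ℂ) + t * I) := by
  rw [dp, dp, map_sum, Finset.sum_mul_sum, Finset.sum_mul]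
  refine Finset.sum_congr rfl fun m _ => ?_
  rw [Finset.sum_mul]
  refine Finset.sum_congr rfl fun n _ => ?_
  rw [ker_half hH, map_mul, Complex.conj_ofReal, ← Complex.exp_conj, map_mul, map_neg,
    Complex.conj_ofReal, Complex.conj_I]
  have e : cexp ((t : ℂ) * ((Real.log n - Real.log m : ℝ) : ℂ) * I) =
      cexp (-((t * Real.log m : ℝ) : ℂ) * I) * cexp (-((t * Real.log n : ℝ) : ℂ) * -I) := by
    rw [← Complex.exp_add]; congr 1; push_cast; ring
  rw [e]; push_cast; ring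

lemma log_sep {a b N : ℕ} (ha : 1 ≤ a) (hb : 1 ≤ b) (hbN : b ≤ N) (hne : a ≠ b) :
    1 / (2 * (N : ℝ)) ≤ |Real.log b - Real.log a| := by
  have ha' : (1 : ℝ) ≤ a := by exact_mod_cast ha
  have hb' : (1 : ℝ) ≤ b := by exact_mod_cast hb
  have hN' : (b : ℝ) ≤ N := by exact_mod_cast hbN
  have key : ∀ x y : ℝ, 1 ≤ x → x + 1 ≤ y → 1 / (x + 1) ≤ Real.log y - Real.log x := by
    intro x y hx hxy
    have h1 : Real.log (x + 1) ≤ Real.log y := Real.log_le_log (by linarith) hxy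
    have h2 := Real.one_sub_inv_le_log_of_pos (x := (x + 1) / x) (by positivity)
    rw [Real.log_div (by positivity) (by positivity)] at h2
    have e : 1 - ((x + 1) / x)⁻¹ = 1 / (x + 1) := by field_simp; ring
    linarith
  rcases lt_or_gt_of_ne hne with h | h
  · have h' : (a : ℝ) + 1 ≤ b := by exact_mod_cast h
    refine le_trans ?_ ((key a b ha' h').trans (le_abs_self _))
    apply one_div_le_one_div_of_le (by positivity); linarith
  · have h' : (b : ℝ) + 1 ≤ a := by exact_mod_cast h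
    rw [abs_sub_comm]
    refine le_trans ?_ ((key b a hb' h').trans (le_abs_self _))
    apply one_div_le_one_div_of_le (by positivity); linarith

lemma rpow_half_le_one {n : ℕ} (hn : 1 ≤ n) : (n : ℝ) ^ (-(1 / 2 : ℝ)) ≤ 1 :=
  Real.rpow_le_one_of_one_le_of_nonpos (by exact_mod_cast hn) (by norm_num)

lemma rpow_half_mul_self {x : ℝ} (hx : 0 < x) :
    x ^ (-(1 / 2 : ℝ)) * x ^ (-(1 / 2 : ℝ)) = 1 / x := by
  rw [← Real.rpow_add hx]; norm_num [Real.rpow_neg_one]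

lemma integrable_sq_gw {H : ℝ} (hH : 0 < H) (τ : ℝ) (g : ℕ → ℝ) (N : ℕ) :
    Integrable (fun t => ‖dp g N t‖ ^ 2 * gw H τ t) := by
  have h : Integrable (fun t => dp g N t * conj (dp g N t) * (gw H τ t : ℂ)) := by
    simp_rw [dp_mul_conj hH]
    exact integrable_finsetSum _ fun m _ => integrable_finsetSum _ fun n _ =>
      (integrable_ker hH τ _ _).const_mul _
  refine h.norm.congr (Eventually.of_forall fun t => ?_)
  simp only [norm_mul, RCLike.norm_conj, norm_real, Real.norm_eq_abs, abs_of_pos (gw_pos H τ t)]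
  ring

lemma mean_sq {H : ℝ} (hH : 0 < H) (τ : ℝ) (g : ℕ → ℝ) (hg : ∀ n, 0 ≤ g n) (N : ℕ) :
    ∫ t, ‖dp g N t‖ ^ 2 * gw H τ t ≤ √Real.pi * H * (∑ n ∈ Finset.Icc 1 N, g n * g n / n +
      (∑ n ∈ Finset.Icc 1 N, g n) ^ 2 * Real.exp (-(H ^ 2 / (16 * (N : ℝ) ^ 2)))) := by
  set η := Real.exp (-(H ^ 2 / (16 * (N : ℝ) ^ 2))) with hη
  have hη0 : 0 < η := Real.exp_pos _
  have e1 : ((∫ t, ‖dp g N t‖ ^ 2 * gw H τ t : ℝ) : ℂ) =
      ∫ t, dp g N t * conj (dp g N t) * (gw H τ t : ℂ) := by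
    rw [← integral_complex_ofReal]
    congr 1; funext t
    rw [Complex.mul_conj, Complex.normSq_eq_norm_sq]; push_cast; ring
  have e2 : ∫ t, dp g N t * conj (dp g N t) * (gw H τ t : ℂ) =
      ∑ m ∈ Finset.Icc 1 N, ∑ n ∈ Finset.Icc 1 N,
      ((g m * (m : ℝ) ^ (-(1 / 2 : ℝ)) * (g n * (n : ℝ) ^ (-(1 / 2 : ℝ))) : ℝ) : ℂ) *
        (((√Real.pi * H : ℝ) : ℂ) * gam H τ (Real.log n - Real.log m)) := by
    simp_rw [dp_mul_conj hH]
    rw [integral_finsetSum _ fun m _ => integrable_finsetSum _ fun n _ =>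
      (integrable_ker hH τ _ _).const_mul _]
    refine Finset.sum_congr rfl fun m _ => ?_
    rw [integral_finsetSum _ fun n _ => (integrable_ker hH τ _ _).const_mul _]
    refine Finset.sum_congr rfl fun n _ => ?_
    rw [integral_const_mul, integral_ker hH]
  have e3 : ∫ t, ‖dp g N t‖ ^ 2 * gw H τ t ≤ ‖((∫ t, ‖dp g N t‖ ^ 2 * gw H τ t : ℝ) : ℂ)‖ := by
    rw [norm_real]; exact le_abs_self _
  refine e3.trans ?_
  rw [e1, e2]
  have hW : 0 ≤ √Real.pi * H := by positivity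
  have bound : ∀ m ∈ Finset.Icc 1 N, ∀ n ∈ Finset.Icc 1 N,
      ‖((g m * (m : ℝ) ^ (-(1 / 2 : ℝ)) * (g n * (n : ℝ) ^ (-(1 / 2 : ℝ))) : ℝ) : ℂ) *
        (((√Real.pi * H : ℝ) : ℂ) * gam H τ (Real.log n - Real.log m))‖ ≤
      √Real.pi * H * ((if m = n then g m * g m / m else 0) + g m * g n * η) := by
    intro m hm n hn
    have hm1 := (Finset.mem_Icc.1 hm).1
    have hn1 := (Finset.mem_Icc.1 hn).1
    have hgm := hg m
    have hgn := hg n
    rw [norm_mul, norm_mul, norm_real, norm_real, norm_gam, Real.norm_of_nonneg hW,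
      Real.norm_of_nonneg (by positivity), mul_left_comm]
    gcongr
    split_ifs with h
    · subst h
      have hm0 : (0 : ℝ) < m := by exact_mod_cast hm1
      have : g m * (m : ℝ) ^ (-(1 / 2 : ℝ)) * (g m * (m : ℝ) ^ (-(1 / 2 : ℝ))) = g m * g m / m := by
        rw [mul_mul_mul_comm, rpow_half_mul_self hm0]; ring
      rw [this]
      simp only [sub_self, ne_eq, OfNat.ofNat_ne_zero, not_false_eq_true, zero_pow, mul_zero,
        zero_div, neg_zero, Real.exp_zero, mul_one, le_add_iff_nonneg_right, ge_iff_le]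
      positivity
    · rw [zero_add]
      have h1 := rpow_half_le_one hm1
      have h2 := rpow_half_le_one hn1
      have h3 : Real.exp (-(H ^ 2 * (Real.log n - Real.log m) ^ 2 / 4)) ≤ η := by
        apply Real.exp_le_exp.2
        have h4 := log_sep hm1 hn1 (Finset.mem_Icc.1 hn).2 h
        have hN : (0 : ℝ) < N := by
          have : 1 ≤ N := hn1.trans (Finset.mem_Icc.1 hn).2
          exact_mod_cast this
        have h5 : (1 / (2 * (N : ℝ))) ^ 2 ≤ (Real.log n - Real.log m) ^ 2 := by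
          rw [← sq_abs (Real.log n - Real.log m)]; gcongr
        have e : H ^ 2 / (16 * (N : ℝ) ^ 2) = H ^ 2 * (1 / (2 * (N : ℝ))) ^ 2 / 4 := by
          field_simp; ring
        rw [e, neg_le_neg_iff]
        gcongr
      calc g m * (m : ℝ) ^ (-(1 / 2 : ℝ)) * (g n * (n : ℝ) ^ (-(1 / 2 : ℝ))) *
            Real.exp (-(H ^ 2 * (Real.log n - Real.log m) ^ 2 / 4))
          ≤ g m * 1 * (g n * 1) * η := by gcongr
        _ = g m * g n * η := by ring
  refine (norm_sum_le _ _).trans ?_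
  refine (Finset.sum_le_sum fun m hm => (norm_sum_le _ _).trans
    (Finset.sum_le_sum (bound m hm))).trans ?_
  simp_rw [← Finset.mul_sum, Finset.sum_add_distrib]
  refine mul_le_mul_of_nonneg_left (le_of_eq ?_) hW
  congr 1
  · refine Finset.sum_congr rfl fun m hm => ?_
    rw [Finset.sum_ite_eq]; simp only [hm, if_true]
  · rw [sq, Finset.sum_mul_sum, Finset.sum_mul]
    refine Finset.sum_congr rfl fun m _ => ?_
    rw [Finset.sum_mul]

lemma hasSum_inv_sq_succ : HasSum (fun n : ℕ => 1 / ((n : ℝ) + 1) ^ 2) (Real.pi ^ 2 / 6) := by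
  have := (hasSum_nat_add_iff' 1).2 hasSum_zeta_two
  simpa using this

/-- The series on the line `Re s = 2` is its diagonal term up to a tiny error. -/
lemma series_diag {H : ℝ} (hH : 1 ≤ H) (τ : ℝ) {m n N : ℕ} (hm : 1 ≤ m) (hn : 1 ≤ n) (hnN : n ≤ N)
    {S : ℂ} (hS : HasSum (fun l : ℕ => (((((l : ℝ) + 1) ^ (-(1 / 2 : ℝ)) : ℝ) : ℂ) *
      gam H τ (Real.log n - Real.log m - Real.log ((l : ℝ) + 1)))) S) :
    ‖S - (((if m ∣ n then ((n : ℝ) / m) ^ (-(1 / 2 : ℝ)) else 0 : ℝ)) : ℂ)‖ ≤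
      2 * Real.exp 8 * (N : ℝ) ^ 2 * Real.exp (-(H ^ 2 / (32 * (N : ℝ) ^ 2))) := by
  have hm0 : (0 : ℝ) < m := by exact_mod_cast hm
  have hn0 : (0 : ℝ) < n := by exact_mod_cast hn
  have hN0 : (0 : ℝ) < N := by exact_mod_cast (lt_of_lt_of_le hn hnN)
  have hH0 : 0 < H := by linarith
  set η := Real.exp (-(H ^ 2 / (32 * (N : ℝ) ^ 2))) with hη
  have hη0 : 0 < η := Real.exp_pos _
  set u : ℕ → ℂ := fun l : ℕ => (((((l : ℝ) + 1) ^ (-(1 / 2 : ℝ)) : ℝ) : ℂ) *
      gam H τ (Real.log n - Real.log m - Real.log ((l : ℝ) + 1))) with hu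
  have hdiag : HasSum (fun l : ℕ => if m * (l + 1) = n then u l else 0)
      (((if m ∣ n then ((n : ℝ) / m) ^ (-(1 / 2 : ℝ)) else 0 : ℝ)) : ℂ) := by
    split_ifs with hd
    · obtain ⟨q, rfl⟩ := hd
      have hq : 1 ≤ q := Nat.pos_of_ne_zero (by rintro rfl; simp at hn)
      obtain ⟨r, rfl⟩ : ∃ r, q = r + 1 := ⟨q - 1, by omega⟩
      have h1 := hasSum_single (f := fun l : ℕ => if m * (l + 1) = m * (r + 1) then u l else 0) r
        (fun l hl => by
          rw [if_neg]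
          intro h
          have := Nat.eq_of_mul_eq_mul_left hm h
          omega)
      simp only [if_true] at h1
      have e : u r = (((((m * (r + 1) : ℕ) : ℝ) / m) ^ (-(1 / 2 : ℝ)) : ℝ) : ℂ) := by
        rw [hu]
        simp only
        have e1 : ((m * (r + 1) : ℕ) : ℝ) = m * ((r : ℝ) + 1) := by push_cast; ring
        rw [e1, Real.log_mul hm0.ne' (by positivity)]
        have e2 : Real.log m + Real.log ((r : ℝ) + 1) - Real.log m - Real.log ((r : ℝ) + 1) = 0 := by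
          ring
        rw [e2, gam_zero, mul_one, mul_div_cancel_left₀ _ hm0.ne']
      rw [← e]; exact h1
    · have : (fun l : ℕ => if m * (l + 1) = n then u l else 0) = fun _ => 0 := by
        funext l
        rw [if_neg]
        rintro rfl
        exact hd (dvd_mul_right _ _)
      rw [this]; simp
  have hoff := hS.sub hdiag
  have hb := (hasSum_inv_sq_succ.mul_left (Real.exp 8 * (N : ℝ) ^ 2 * η))
  refine (hoff.norm_le_of_bounded hb fun l => ?_).trans ?_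
  · split_ifs with h
    · rw [sub_self, norm_zero]; positivity
    · rw [sub_zero, hu]
      simp only
      rw [norm_mul, norm_real, norm_gam, Real.norm_of_nonneg (by positivity)]
      have hl : (0 : ℝ) < (l : ℝ) + 1 := by positivity
      have h1 : ((l : ℝ) + 1) ^ (-(1 / 2 : ℝ)) ≤ 1 :=
        Real.rpow_le_one_of_one_le_of_nonpos (by simp) (by norm_num)
      set w := Real.log n - Real.log m - Real.log ((l : ℝ) + 1) with hw
      have h4 : 1 / (2 * (N : ℝ)) ≤ |w| := by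
        have := log_sep (a := m * (l + 1)) (Nat.mul_pos hm (Nat.succ_pos l)) hn hnN h
        have e1 : ((m * (l + 1) : ℕ) : ℝ) = m * ((l : ℝ) + 1) := by push_cast; ring
        rw [e1, Real.log_mul hm0.ne' hl.ne', ← sub_sub] at this
        exact this
      have h5 : (1 / (2 * (N : ℝ))) ^ 2 ≤ w ^ 2 := by rw [← sq_abs w]; gcongr
      have h6 : Real.exp w ≤ N / ((l : ℝ) + 1) := by
        rw [hw, Real.exp_sub, Real.exp_sub, Real.exp_log hn0, Real.exp_log hm0, Real.exp_log hl]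
        gcongr
        have h7 : (n : ℝ) ≤ N := by exact_mod_cast hnN
        have h8 : (1 : ℝ) ≤ m := by exact_mod_cast hm
        exact (div_le_self hn0.le h8).trans h7
      have h9 : -(H ^ 2 * w ^ 2 / 4) ≤ 8 + (w + w) + -(H ^ 2 / (32 * (N : ℝ) ^ 2)) := by
        have e : H ^ 2 / (32 * (N : ℝ) ^ 2) = H ^ 2 * (1 / (2 * (N : ℝ))) ^ 2 / 8 := by
          field_simp; ring
        have h10 : H ^ 2 * (1 / (2 * (N : ℝ))) ^ 2 ≤ H ^ 2 * w ^ 2 := by gcongr
        have h11 : w ^ 2 ≤ H ^ 2 * w ^ 2 := by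
          have : 1 ≤ H ^ 2 := by nlinarith
          nlinarith [sq_nonneg w]
        rw [e]
        nlinarith [sq_nonneg (w + 8)]
      calc ((l : ℝ) + 1) ^ (-(1 / 2 : ℝ)) * Real.exp (-(H ^ 2 * w ^ 2 / 4))
          ≤ 1 * Real.exp (8 + (w + w) + -(H ^ 2 / (32 * (N : ℝ) ^ 2))) := by gcongr
        _ = Real.exp 8 * (Real.exp w * Real.exp w) * η := by
          rw [one_mul, Real.exp_add, Real.exp_add, Real.exp_add]
        _ ≤ Real.exp 8 * ((N / ((l : ℝ) + 1)) * (N / ((l : ℝ) + 1))) * η := by gcongr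
        _ = Real.exp 8 * (N : ℝ) ^ 2 * η * (1 / ((l : ℝ) + 1) ^ 2) := by field_simp
  · have h1 : Real.pi ^ 2 / 6 ≤ 2 := by
      have := Real.pi_lt_d2
      have := Real.pi_pos
      nlinarith
    have : 0 ≤ Real.exp 8 * (N : ℝ) ^ 2 * η := by positivity
    nlinarith

end Pool.Agent.Lib.MP_80d0cf_nt
end

-- part Pool.Agent.Lib.MP_80d0cf_nt.Global
section

/-! The basic inequality between the zeta moment and diagonal sums. -/

namespace Pool.Agent.Lib.MP_80d0cf_nt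

open Complex Filter Topology Set MeasureTheory
open scoped ComplexConjugate

noncomputable def zl (t : ℝ) : ℂ := riemannZeta (((1 / 2 : ℝ) : ℂ) + t * I)

lemma continuous_zl : Continuous zl := continuous_zeta_line (1 / 2) (by norm_num)

lemma continuous_ker_line (H τ v σ : ℝ) : Continuous (fun t : ℝ => ker H τ v (σ + t * I)) :=
  (differentiable_ker H τ v).continuous.comp (by fun_prop)

lemma diag_sum (f g : ℕ → ℝ) (N : ℕ) :
    ∑ m ∈ Finset.Icc 1 N, ∑ n ∈ Finset.Icc 1 N,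
      f m * (m : ℝ) ^ (-(1 / 2 : ℝ)) * (g n * (n : ℝ) ^ (-(1 / 2 : ℝ))) *
        (if m ∣ n then ((n : ℝ) / m) ^ (-(1 / 2 : ℝ)) else 0) =
    ∑ n ∈ Finset.Icc 1 N, (∑ m ∈ n.divisors, f m) * g n / n := by
  rw [Finset.sum_comm]
  refine Finset.sum_congr rfl fun n hn => ?_
  have hn1 := (Finset.mem_Icc.1 hn).1
  have hnN := (Finset.mem_Icc.1 hn).2
  have hn0 : (0 : ℝ) < n := by exact_mod_cast hn1
  have e : n.divisors = (Finset.Icc 1 N).filter (· ∣ n) := by
    ext m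
    simp only [Nat.mem_divisors, Finset.mem_filter, Finset.mem_Icc]
    constructor
    · rintro ⟨h1, h2⟩
      exact ⟨⟨Nat.pos_of_dvd_of_pos h1 hn1, (Nat.le_of_dvd hn1 h1).trans hnN⟩, h1⟩
    · rintro ⟨_, h2⟩
      exact ⟨h2, by omega⟩
  rw [e, Finset.sum_filter, Finset.sum_mul, Finset.sum_div]
  refine Finset.sum_congr rfl fun m hm => ?_
  have hm0 : (0 : ℝ) < m := by exact_mod_cast (Finset.mem_Icc.1 hm).1
  split_ifs with h
  · rw [Real.div_rpow hn0.le hm0.le]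
    have h1 := rpow_half_mul_self hn0
    have h2 : (m : ℝ) ^ (-(1 / 2 : ℝ)) ≠ 0 := (Real.rpow_pos_of_pos hm0 _).ne'
    calc f m * (m : ℝ) ^ (-(1 / 2 : ℝ)) * (g n * (n : ℝ) ^ (-(1 / 2 : ℝ))) *
          ((n : ℝ) ^ (-(1 / 2 : ℝ)) / (m : ℝ) ^ (-(1 / 2 : ℝ)))
        = f m * g n * ((n : ℝ) ^ (-(1 / 2 : ℝ)) * (n : ℝ) ^ (-(1 / 2 : ℝ))) := by field_simp
      _ = f m * g n / n := by rw [h1]; ring
  · simp

lemma mean_zeta : ∃ C : ℝ, 0 < C ∧ ∀ (H T τ D : ℝ) (N : ℕ) (f g : ℕ → ℝ), (∀ n, 0 ≤ f n) →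
    (∀ n, 0 ≤ g n) → 1 ≤ H → 1 ≤ N → 0 ≤ D → 1 + D ≤ τ → τ + D ≤ T →
    ‖(∫ t in (1 : ℝ)..T, zl t * (dp f N t * conj (dp g N t) * (gw H τ t : ℂ))) -
      ((√Real.pi * H * ∑ n ∈ Finset.Icc 1 N, (∑ m ∈ n.divisors, f m) * g n / n : ℝ) : ℂ)‖ ≤
      (∑ n ∈ Finset.Icc 1 N, f n) * (∑ n ∈ Finset.Icc 1 N, g n) * (√Real.pi * H) *
        (C * (T + 4) * (N : ℝ) ^ 2 * Real.exp (-(D ^ 2 / (2 * H ^ 2))) +
          C * (N : ℝ) ^ 2 * Real.exp (-(H ^ 2 / (32 * (N : ℝ) ^ 2)))) := by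
  obtain ⟨C0, hC0, hshift⟩ := shift
  refine ⟨C0 + 2 * Real.exp 8, by positivity, ?_⟩
  intro H T τ D N f g hf hg hH hN hD hτ1 hτ2
  have hH0 : 0 < H := by linarith
  have hT : 0 < T + 4 := by linarith
  have hN1 : (1 : ℝ) ≤ N := by exact_mod_cast hN
  set W : ℝ := √Real.pi * H with hW
  have hpi : 1 ≤ √Real.pi := by
    rw [Real.one_le_sqrt]; linarith [Real.pi_gt_three]
  have hHW : H ≤ W := by rw [hW]; nlinarith
  have hW0 : 0 < W := by linarith
  set E : ℝ := (C0 + 2 * Real.exp 8) * (T + 4) * (N : ℝ) ^ 2 * Real.exp (-(D ^ 2 / (2 * H ^ 2))) +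
          (C0 + 2 * Real.exp 8) * (N : ℝ) ^ 2 * Real.exp (-(H ^ 2 / (32 * (N : ℝ) ^ 2))) with hE
  have one : ∀ m ∈ Finset.Icc 1 N, ∀ n ∈ Finset.Icc 1 N,
      ‖(∫ t in (1 : ℝ)..T, zl t * ker H τ (Real.log n - Real.log m) (((1 / 2 : ℝ) : ℂ) + t * I)) -
        (W : ℂ) * (((if m ∣ n then ((n : ℝ) / m) ^ (-(1 / 2 : ℝ)) else 0 : ℝ)) : ℂ)‖ ≤ W * E := by
    intro m hm n hn
    have hm1 := (Finset.mem_Icc.1 hm).1
    have hn1 := (Finset.mem_Icc.1 hn).1
    have hnN := (Finset.mem_Icc.1 hn).2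
    have hv : Real.log n - Real.log m ≤ Real.log N := by
      have h1 : Real.log n ≤ Real.log N :=
        Real.log_le_log (by exact_mod_cast hn1) (by exact_mod_cast hnN)
      have h2 : 0 ≤ Real.log m := Real.log_nonneg (by exact_mod_cast hm1)
      linarith
    have h1 := hshift H T τ D N _ hH hN1 hD hτ1 hτ2 hv
    have h2 := hasSum_line_two hH0 τ (Real.log n - Real.log m)
    have hWc : (W : ℂ) ≠ 0 := by exact_mod_cast hW0.ne'
    have h3 := h2.mul_left (W : ℂ)⁻¹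
    simp only [← hW, inv_mul_cancel_left₀ hWc] at h3
    have h4 := series_diag hH τ hm1 hn1 hnN h3
    set J := ∫ y : ℝ, riemannZeta (((2 : ℝ) : ℂ) + y * I) *
      ker H τ (Real.log n - Real.log m) (((2 : ℝ) : ℂ) + y * I) with hJ
    set d : ℂ := (((if m ∣ n then ((n : ℝ) / m) ^ (-(1 / 2 : ℝ)) else 0 : ℝ)) : ℂ) with hd
    have h5 : ‖J - W * d‖ ≤ W * (2 * Real.exp 8 * (N : ℝ) ^ 2 *
        Real.exp (-(H ^ 2 / (32 * (N : ℝ) ^ 2)))) := by
      have : J - W * d = W * ((W : ℂ)⁻¹ * J - d) := by field_simp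
      rw [this, norm_mul, norm_real, Real.norm_of_nonneg hW0.le]
      gcongr
    refine (norm_sub_le_norm_sub_add_norm_sub _ J _).trans ?_
    rw [hE, mul_add]
    refine add_le_add (le_trans h1 ?_) (h5.trans ?_)
    · calc C0 * (T + 4) * (N : ℝ) ^ 2 * H * Real.exp (-(D ^ 2 / (2 * H ^ 2)))
          ≤ (C0 + 2 * Real.exp 8) * (T + 4) * (N : ℝ) ^ 2 * W * Real.exp (-(D ^ 2 / (2 * H ^ 2))) := by
            gcongr
            have := Real.exp_pos 8
            linarith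
        _ = _ := by ring
    · gcongr
      linarith
  have e2 : ∫ t in (1 : ℝ)..T, zl t * (dp f N t * conj (dp g N t) * (gw H τ t : ℂ)) =
      ∑ m ∈ Finset.Icc 1 N, ∑ n ∈ Finset.Icc 1 N,
      ((f m * (m : ℝ) ^ (-(1 / 2 : ℝ)) * (g n * (n : ℝ) ^ (-(1 / 2 : ℝ))) : ℝ) : ℂ) *
        ∫ t in (1 : ℝ)..T, zl t * ker H τ (Real.log n - Real.log m) (((1 / 2 : ℝ) : ℂ) + t * I) := by
    have hc : ∀ (c : ℂ) (v : ℝ), Continuous (fun t : ℝ =>
        zl t * (c * ker H τ v (((1 / 2 : ℝ) : ℂ) + t * I))) := fun c v =>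
      continuous_zl.mul (continuous_const.mul (continuous_ker_line H τ v _))
    simp_rw [dp_mul_conj hH0, Finset.mul_sum]
    rw [intervalIntegral.integral_finsetSum fun m _ =>
      (continuous_finsetSum _ fun n _ => hc _ _).intervalIntegrable _ _]
    refine Finset.sum_congr rfl fun m _ => ?_
    rw [intervalIntegral.integral_finsetSum fun n _ => (hc _ _).intervalIntegrable _ _]
    refine Finset.sum_congr rfl fun n _ => ?_
    rw [← intervalIntegral.integral_const_mul]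
    congr 1; funext t; ring
  rw [e2, ← diag_sum f g N, Finset.mul_sum, Complex.ofReal_sum, ← Finset.sum_sub_distrib,
    Finset.sum_mul_sum, mul_assoc, Finset.sum_mul]
  refine (norm_sum_le _ _).trans (Finset.sum_le_sum fun m hm => ?_)
  rw [Finset.mul_sum, Complex.ofReal_sum, ← Finset.sum_sub_distrib, Finset.sum_mul]
  refine (norm_sum_le _ _).trans (Finset.sum_le_sum fun n hn => ?_)
  have h1 := one m hm n hn
  have hfm := hf m
  have hgn := hg n
  set c : ℝ := f m * (m : ℝ) ^ (-(1 / 2 : ℝ)) * (g n * (n : ℝ) ^ (-(1 / 2 : ℝ))) with hc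
  have hc0 : 0 ≤ c := by positivity
  have hc1 : c ≤ f m * g n := by
    have h2 := rpow_half_le_one (Finset.mem_Icc.1 hm).1
    have h3 := rpow_half_le_one (Finset.mem_Icc.1 hn).1
    calc c ≤ f m * 1 * (g n * 1) := by rw [hc]; gcongr
      _ = _ := by ring
  have e3 : ∀ (J : ℂ) (d : ℝ), (c : ℂ) * J - ((W * (c * d) : ℝ) : ℂ) = c * (J - W * (d : ℂ)) := by
    intro J d; push_cast; ring
  rw [e3, norm_mul, norm_real, Real.norm_of_nonneg hc0]
  gcongr

lemma young_pow {a b μ : ℝ} (ha : 0 ≤ a) (hb : 0 ≤ b) (hμ : 0 < μ) (j : ℕ) :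
    a * b ^ j ≤ μ ^ j * a ^ (j + 1) + b ^ (j + 1) / μ := by
  rcases le_total b (μ * a) with h | h
  · have h1 : a * b ^ j ≤ a * (μ * a) ^ j := by gcongr
    have h2 : a * (μ * a) ^ j = μ ^ j * a ^ (j + 1) := by ring
    have h3 : 0 ≤ b ^ (j + 1) / μ := by positivity
    linarith
  · have h1 : a ≤ b / μ := by rw [le_div_iff₀ hμ]; linarith
    have h2 : a * b ^ j ≤ b / μ * b ^ j := by gcongr
    have h3 : b / μ * b ^ j = b ^ (j + 1) / μ := by ring
    have h4 : 0 ≤ μ ^ j * a ^ (j + 1) := by positivity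
    linarith

lemma average_gw {H T : ℝ} (hH : 0 < H) (hT : 1 ≤ T) {a b : ℝ} (hab : a ≤ b) (F : ℝ → ℝ)
    (hF : Continuous F) (hF0 : ∀ t, 0 ≤ F t) :
    ∫ τ in a..b, ∫ t in (1 : ℝ)..T, F t * gw H τ t ≤ √Real.pi * H * ∫ t in (1 : ℝ)..T, F t := by
  simp_rw [intervalIntegral.integral_of_le hT]
  have hcont : Continuous (fun p : ℝ × ℝ => F p.2 * gw H p.1 p.2) :=
    (hF.comp continuous_snd).mul (continuous_gw H)
  have hint : Integrable (Function.uncurry fun τ t => F t * gw H τ t)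
      ((volume.restrict (uIoc a b)).prod (volume.restrict (Ioc 1 T))) := by
    rw [Measure.prod_restrict, uIoc_of_le hab]
    have : IntegrableOn (fun p : ℝ × ℝ => F p.2 * gw H p.1 p.2) (Icc a b ×ˢ Icc 1 T)
        (volume.prod volume) :=
      hcont.continuousOn.integrableOn_compact (isCompact_Icc.prod isCompact_Icc)
    exact this.mono_set (prod_mono Ioc_subset_Icc_self Ioc_subset_Icc_self)
  rw [intervalIntegral_integral_swap hint, ← integral_const_mul]
  refine setIntegral_mono_on ?_ ?_ measurableSet_Ioc fun t _ => ?_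
  · have := hint.integral_prod_right
    refine this.congr (Eventually.of_forall fun t => ?_)
    simp only [Function.uncurry]
    rw [intervalIntegral.integral_of_le hab, uIoc_of_le hab]
  · exact ((continuous_const.mul hF).continuousOn.integrableOn_compact isCompact_Icc).mono_set
      Ioc_subset_Icc_self
  · rw [intervalIntegral.integral_const_mul, mul_comm]
    refine mul_le_mul_of_nonneg_right ?_ (hF0 t)
    simp_rw [gw_symm H _ t]
    rw [intervalIntegral.integral_of_le hab, ← integral_gw hH t]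
    exact setIntegral_le_integral (integrable_gw hH t)
      (Eventually.of_forall fun τ => (gw_pos H t τ).le)

lemma global_ineq : ∃ C : ℝ, 0 < C ∧ ∀ (j : ℕ) (H T μ : ℝ) (N : ℕ) (f g : ℕ → ℝ) (B : ℝ → ℂ),
    (∀ n, 0 ≤ f n) → (∀ n, 0 ≤ g n) → 1 ≤ H → 1 ≤ N → 12 ≤ T → 0 < μ →
    (∀ t, dp f N t = B t ^ j) → (∀ t, dp g N t = B t ^ (j + 1)) →
    T / 3 * (∑ n ∈ Finset.Icc 1 N, (∑ m ∈ n.divisors, f m) * g n / n -
      (∑ n ∈ Finset.Icc 1 N, f n) * (∑ n ∈ Finset.Icc 1 N, g n) *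
        (C * (T + 4) * (N : ℝ) ^ 2 * Real.exp (-((T / 4) ^ 2 / (2 * H ^ 2))) +
          C * (N : ℝ) ^ 2 * Real.exp (-(H ^ 2 / (32 * (N : ℝ) ^ 2)))) -
      (∑ n ∈ Finset.Icc 1 N, g n * g n / n +
        (∑ n ∈ Finset.Icc 1 N, g n) ^ 2 * Real.exp (-(H ^ 2 / (16 * (N : ℝ) ^ 2)))) / μ) ≤
      μ ^ (2 * j + 1) * ∫ t in (0 : ℝ)..T, ‖zl t‖ ^ (2 * (j + 1)) := by
  obtain ⟨C, hC, hmean⟩ := mean_zeta
  refine ⟨C, hC, ?_⟩
  intro j H T μ N f g B hf hg hH hN hT hμ hfB hgB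
  have hH0 : 0 < H := by linarith
  have hT1 : (1 : ℝ) ≤ T := by linarith
  set W : ℝ := √Real.pi * H with hW
  have hW0 : 0 < W := by rw [hW]; have := Real.pi_pos; positivity
  set S := ∑ n ∈ Finset.Icc 1 N, (∑ m ∈ n.divisors, f m) * g n / n with hS
  set E := (∑ n ∈ Finset.Icc 1 N, f n) * (∑ n ∈ Finset.Icc 1 N, g n) *
        (C * (T + 4) * (N : ℝ) ^ 2 * Real.exp (-((T / 4) ^ 2 / (2 * H ^ 2))) +
          C * (N : ℝ) ^ 2 * Real.exp (-(H ^ 2 / (32 * (N : ℝ) ^ 2)))) with hE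
  set U := ∑ n ∈ Finset.Icc 1 N, g n * g n / n +
        (∑ n ∈ Finset.Icc 1 N, g n) ^ 2 * Real.exp (-(H ^ 2 / (16 * (N : ℝ) ^ 2))) with hU
  set F : ℝ → ℝ := fun t => ‖zl t‖ ^ (2 * (j + 1)) with hF
  have hFc : Continuous F := continuous_zl.norm.pow _
  have hF0 : ∀ t, 0 ≤ F t := fun t => by positivity
  have hgwc : ∀ τ, Continuous (gw H τ) := fun τ => by unfold gw; fun_prop
  have loc : ∀ τ ∈ Icc (T / 3) (2 * T / 3),
      W * (S - E - U / μ) ≤ μ ^ (2 * j + 1) * ∫ t in (1 : ℝ)..T, F t * gw H τ t := by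
    intro τ hτ
    have h1 := hmean H T τ (T / 4) N f g hf hg hH hN (by linarith) (by linarith [hτ.1])
      (by linarith [hτ.2])
    set J := ∫ t in (1 : ℝ)..T, zl t * (dp f N t * conj (dp g N t) * (gw H τ t : ℂ)) with hJ
    have h2 : W * S - W * E ≤ ‖J‖ := by
      have h3 : ‖((W * S : ℝ) : ℂ)‖ ≤ ‖J - ((W * S : ℝ) : ℂ)‖ + ‖J‖ := by
        have := norm_sub_le J (J - ((W * S : ℝ) : ℂ))
        simp only [sub_sub_cancel] at this
        linarith
      have h4 : W * S ≤ ‖((W * S : ℝ) : ℂ)‖ := by rw [norm_real]; exact le_abs_self _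
      have h5 : ‖J - ((W * S : ℝ) : ℂ)‖ ≤ W * E := by
        refine h1.trans (le_of_eq ?_); rw [hE]; ring
      linarith
    have c1 : Continuous (fun t => μ ^ (2 * j + 1) * (F t * gw H τ t)) :=
      continuous_const.mul (hFc.mul (hgwc τ))
    have c2 : Continuous (fun t => (‖dp g N t‖ ^ 2 * gw H τ t) / μ) :=
      (((continuous_dp g N).norm.pow 2).mul (hgwc τ)).div_const μ
    have h6 : ‖J‖ ≤ ∫ t in (1 : ℝ)..T, (μ ^ (2 * j + 1) * (F t * gw H τ t) +
        (‖dp g N t‖ ^ 2 * gw H τ t) / μ) := by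
      refine intervalIntegral.norm_integral_le_of_norm_le hT1
        (Eventually.of_forall fun t _ => ?_) ?_
      · simp only [norm_mul, RCLike.norm_conj, norm_real, Real.norm_eq_abs,
          abs_of_pos (gw_pos H τ t), hfB, hgB, norm_pow, hF]
        have hy := young_pow (norm_nonneg (zl t)) (norm_nonneg (B t)) hμ (2 * j + 1)
        have hg0 := (gw_pos H τ t).le
        calc ‖zl t‖ * (‖B t‖ ^ j * ‖B t‖ ^ (j + 1) * gw H τ t)
            = (‖zl t‖ * ‖B t‖ ^ (2 * j + 1)) * gw H τ t := by ring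
          _ ≤ (μ ^ (2 * j + 1) * ‖zl t‖ ^ (2 * j + 1 + 1) + ‖B t‖ ^ (2 * j + 1 + 1) / μ) *
              gw H τ t := by gcongr
          _ = _ := by ring
      · exact (c1.intervalIntegrable _ _).add (c2.intervalIntegrable _ _)
    rw [intervalIntegral.integral_add (c1.intervalIntegrable _ _) (c2.intervalIntegrable _ _),
      intervalIntegral.integral_const_mul, intervalIntegral.integral_div] at h6
    have h7 : ∫ t in (1 : ℝ)..T, ‖dp g N t‖ ^ 2 * gw H τ t ≤ W * U := by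
      refine le_trans ?_ (mean_sq hH0 τ g hg N)
      rw [intervalIntegral.integral_of_le hT1]
      exact setIntegral_le_integral (integrable_sq_gw hH0 τ g N)
        (Eventually.of_forall fun t => by have := gw_pos H τ t; positivity)
    have h8 : (∫ t in (1 : ℝ)..T, ‖dp g N t‖ ^ 2 * gw H τ t) / μ ≤ W * U / μ := by gcongr
    have e : W * (S - E - U / μ) = W * S - W * E - W * U / μ := by ring
    linarith
  have hab : T / 3 ≤ 2 * T / 3 := by linarith
  have hci : Continuous (fun τ => ∫ t in (1 : ℝ)..T, F t * gw H τ t) :=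
    intervalIntegral.continuous_parametric_intervalIntegral_of_continuous'
      (f := fun τ t => F t * gw H τ t) ((hFc.comp continuous_snd).mul (continuous_gw H)) _ _
  have hci' : Continuous (fun τ => μ ^ (2 * j + 1) * ∫ t in (1 : ℝ)..T, F t * gw H τ t) :=
    continuous_const.mul hci
  have h9 := intervalIntegral.integral_mono_on (μ := volume) hab intervalIntegrable_const
    (hci'.intervalIntegrable _ _) loc
  rw [intervalIntegral.integral_const, intervalIntegral.integral_const_mul] at h9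
  have h10 := average_gw hH0 hT1 hab F hFc hF0
  have h11 : ∫ t in (1 : ℝ)..T, F t ≤ ∫ t in (0 : ℝ)..T, F t :=
    intervalIntegral.integral_mono_interval (by norm_num) hT1 le_rfl
      (Eventually.of_forall hF0) (hFc.intervalIntegrable _ _)
  have hμp : 0 < μ ^ (2 * j + 1) := by positivity
  have h12 : T / 3 * (W * (S - E - U / μ)) ≤ μ ^ (2 * j + 1) * (W * ∫ t in (0 : ℝ)..T, F t) := by
    have e : (2 * T / 3 - T / 3) • (W * (S - E - U / μ)) = T / 3 * (W * (S - E - U / μ)) := by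
      rw [smul_eq_mul]; ring
    rw [← e]
    refine h9.trans ?_
    gcongr
    exact h10.trans (by gcongr)
  have h13 : W * (T / 3 * (S - E - U / μ)) ≤ W * (μ ^ (2 * j + 1) * ∫ t in (0 : ℝ)..T, F t) := by
    linarith
  exact le_of_mul_le_mul_left h13 hW0

end Pool.Agent.Lib.MP_80d0cf_nt
end

-- part Pool.Agent.Lib.MP_80d0cf_nt.Trunc
section

/-! Truncated multiplicative functions, Rankin's trick, products of Dirichlet polynomials. -/

namespace Pool.Agent.Lib.MP_80d0cf_nt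

open Filter Topology Complex

open Classical in
noncomputable def trunc (b : ArithmeticFunction ℝ) (x : ℝ) : ArithmeticFunction ℝ :=
  ⟨fun n => if (n : ℝ) ≤ x then b n else 0, by simp⟩

lemma trunc_apply (b : ArithmeticFunction ℝ) (x : ℝ) (n : ℕ) :
    trunc b x n = if (n : ℝ) ≤ x then b n else 0 := by
  simp [trunc]

lemma trunc_nonneg {b : ArithmeticFunction ℝ} (hb : ∀ n, 0 ≤ b n) (x : ℝ) (n : ℕ) :
    0 ≤ trunc b x n := by
  rw [trunc_apply]; split_ifs
  · exact hb n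
  · exact le_rfl

lemma trunc_le {b : ArithmeticFunction ℝ} (hb : ∀ n, 0 ≤ b n) (x : ℝ) (n : ℕ) :
    trunc b x n ≤ b n := by
  rw [trunc_apply]; split_ifs
  · exact le_rfl
  · exact hb n

lemma pow_nonneg_af {f : ArithmeticFunction ℝ} (hf : ∀ n, 0 ≤ f n) (m : ℕ) (n : ℕ) :
    0 ≤ (f ^ m) n := by
  induction m generalizing n with
  | zero => simpa using one_nonneg_af n
  | succ m ih => rw [pow_succ]; exact mul_nonneg_af ih hf n

lemma pow_le_pow_af {f g : ArithmeticFunction ℝ} (hf : ∀ n, 0 ≤ f n) (hfg : ∀ n, f n ≤ g n)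
    (m : ℕ) (n : ℕ) : (f ^ m) n ≤ (g ^ m) n := by
  induction m generalizing n with
  | zero => simp
  | succ m ih => rw [pow_succ, pow_succ]; exact mul_le_mul_af (pow_nonneg_af hf m) hf ih hfg n

lemma mul_le_add_af {f f1 f2 g : ArithmeticFunction ℝ} {α : ℝ} (hf : ∀ n, f n ≤ f1 n + α * f2 n)
    (hg : ∀ n, 0 ≤ g n) (n : ℕ) : (g * f) n ≤ (g * f1) n + α * (g * f2) n := by
  simp only [ArithmeticFunction.mul_apply]
  rw [Finset.mul_sum, ← Finset.sum_add_distrib]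
  refine Finset.sum_le_sum fun x _ => ?_
  have := mul_le_mul_of_nonneg_left (hf x.2) (hg x.1)
  linarith

lemma pow_le_trunc {b t c : ArithmeticFunction ℝ} {α : ℝ} (hα : 0 ≤ α) (ht : ∀ n, 0 ≤ t n)
    (htb : ∀ n, t n ≤ b n) (hc : ∀ n, 0 ≤ c n) (hb : ∀ n, b n ≤ t n + α * c n) (m : ℕ) (n : ℕ) :
    (b ^ (m + 1)) n ≤ (t ^ (m + 1)) n + ((m + 1 : ℝ) * α) * (c * b ^ m) n := by
  have hb0 : ∀ n, 0 ≤ b n := fun n => (ht n).trans (htb n)
  induction m generalizing n with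
  | zero => simpa using hb n
  | succ m ih =>
    have h1 := mul_le_add_af ih hb0 n
    have h2 := mul_le_add_af hb (pow_nonneg_af ht (m + 1)) n
    have h3 : (t ^ (m + 1) * c) n ≤ (b ^ (m + 1) * c) n :=
      mul_le_mul_af (pow_nonneg_af ht _) hc (pow_le_pow_af ht htb _) (fun _ => le_rfl) n
    have e1 : b * b ^ (m + 1) = b ^ (m + 1 + 1) := by ring
    have e2 : b * t ^ (m + 1) = t ^ (m + 1) * b := by ring
    have e3 : b * (c * b ^ m) = c * b ^ (m + 1) := by ring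
    have e4 : t ^ (m + 1) * t = t ^ (m + 1 + 1) := by ring
    have e5 : b ^ (m + 1) * c = c * b ^ (m + 1) := by ring
    rw [e1, e2, e3] at h1
    rw [e4] at h2
    rw [e5] at h3
    have h4 := mul_le_mul_of_nonneg_left h3 hα
    push_cast
    linarith

lemma pow_eq_zero_of_lt {t : ArithmeticFunction ℝ} {x : ℝ} (hx : 1 ≤ x)
    (ht : ∀ n : ℕ, x < n → t n = 0) (m : ℕ) (n : ℕ) (hn : x ^ m < n) : (t ^ m) n = 0 := by
  induction m generalizing n with
  | zero =>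
    rw [pow_zero] at hn ⊢
    apply ArithmeticFunction.one_apply_ne
    rintro rfl
    simp at hn
  | succ m ih =>
    rw [pow_succ, ArithmeticFunction.mul_apply]
    refine Finset.sum_eq_zero fun y hy => ?_
    have h1 : y.1 * y.2 = n := (Nat.mem_divisorsAntidiagonal.1 hy).1
    by_cases h2 : x < y.2
    · rw [ht _ h2, mul_zero]
    · rw [ih y.1, zero_mul]
      by_contra h3
      push Not at h2 h3
      have : (n : ℝ) ≤ x ^ (m + 1) := by
        rw [← h1, pow_succ]; push_cast; gcongr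
      linarith

lemma pow_le_npow {t : ArithmeticFunction ℝ} (ht : ∀ n, 0 ≤ t n) (ht1 : ∀ n, t n ≤ 1)
    (m : ℕ) (n : ℕ) (hn : 1 ≤ n) : (t ^ m) n ≤ (n : ℝ) ^ m := by
  induction m generalizing n with
  | zero =>
    rw [pow_zero, pow_zero, ArithmeticFunction.one_apply]
    split_ifs <;> norm_num
  | succ m ih =>
    rw [pow_succ, ArithmeticFunction.mul_apply,
      Nat.sum_divisorsAntidiagonal (fun a b => (t ^ m) a * t b)]
    have h1 : ∀ d ∈ n.divisors, (t ^ m) d * t (n / d) ≤ (n : ℝ) ^ m := by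
      intro d hd
      have hd1 : 1 ≤ d := Nat.pos_of_mem_divisors hd
      have hd2 : (d : ℝ) ≤ n := by exact_mod_cast Nat.divisor_le hd
      calc (t ^ m) d * t (n / d) ≤ (d : ℝ) ^ m * 1 :=
            mul_le_mul (ih d hd1) (ht1 _) (ht _) (by positivity)
        _ ≤ (n : ℝ) ^ m := by rw [mul_one]; gcongr
    refine (Finset.sum_le_card_nsmul _ _ _ h1).trans ?_
    rw [nsmul_eq_mul, pow_succ']
    gcongr
    exact_mod_cast Nat.card_divisors_le_self n

lemma sum_pow_le {t : ArithmeticFunction ℝ} (ht : ∀ n, 0 ≤ t n) (ht1 : ∀ n, t n ≤ 1)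
    (m N : ℕ) : ∑ n ∈ Finset.Icc 1 N, (t ^ m) n ≤ (N : ℝ) ^ (m + 1) := by
  have h1 : ∀ n ∈ Finset.Icc 1 N, (t ^ m) n ≤ (N : ℝ) ^ m := by
    intro n hn
    refine (pow_le_npow ht ht1 m n (Finset.mem_Icc.1 hn).1).trans ?_
    have : (n : ℝ) ≤ N := by exact_mod_cast (Finset.mem_Icc.1 hn).2
    gcongr
  refine (Finset.sum_le_card_nsmul _ _ _ h1).trans ?_
  simp [pow_succ']

lemma term_eq (f : ℕ → ℝ) (t : ℝ) {n : ℕ} (hn : n ≠ 0) :
    LSeries.term (fun n => (f n : ℂ)) (((1 / 2 : ℝ) : ℂ) + t * I) n =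
      ((f n * (n : ℝ) ^ (-(1 / 2 : ℝ)) : ℝ) : ℂ) * cexp (-((t * Real.log n : ℝ) : ℂ) * I) := by
  have hn0 : (0 : ℝ) < n := by exact_mod_cast Nat.pos_of_ne_zero hn
  have hn' : (n : ℂ) ≠ 0 := by exact_mod_cast hn
  rw [LSeries.term_of_ne_zero hn, div_eq_mul_inv, ← Complex.cpow_neg,
    Complex.cpow_def_of_ne_zero hn', Real.rpow_def_of_pos hn0, ← Complex.natCast_log]
  push_cast
  rw [mul_assoc, ← Complex.exp_add]
  congr 2
  ring

lemma hasSum_dp (f : ℕ → ℝ) (N : ℕ) (hf : ∀ n, N < n → f n = 0) (t : ℝ) :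
    LSeriesHasSum (fun n => (f n : ℂ)) (((1 / 2 : ℝ) : ℂ) + t * I) (dp f N t) := by
  have h : HasSum (LSeries.term (fun n => (f n : ℂ)) (((1 / 2 : ℝ) : ℂ) + t * I))
      (∑ n ∈ Finset.Icc 1 N, LSeries.term (fun n => (f n : ℂ)) (((1 / 2 : ℝ) : ℂ) + t * I) n) := by
    refine hasSum_sum_of_ne_finset_zero fun n hn => ?_
    rcases eq_or_ne n 0 with rfl | h0
    · simp
    · have : N < n := by
        simp only [Finset.mem_Icc, not_and, not_le] at hn
        exact hn (Nat.pos_of_ne_zero h0)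
      rw [term_eq f t h0, hf n this]; simp
  have e : dp f N t = ∑ n ∈ Finset.Icc 1 N,
      LSeries.term (fun n => (f n : ℂ)) (((1 / 2 : ℝ) : ℂ) + t * I) n :=
    Finset.sum_congr rfl fun n hn => (term_eq f t (by
      have := (Finset.mem_Icc.1 hn).1; omega)).symm
  rw [e]; exact h

lemma dp_mul {f g : ArithmeticFunction ℝ} {N : ℕ} (hf : ∀ n, N < n → f n = 0)
    (hg : ∀ n, N < n → g n = 0) (hfg : ∀ n, N < n → (f * g) n = 0) (t : ℝ) :
    dp (f * g : ArithmeticFunction ℝ) N t = dp f N t * dp g N t := by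
  have h1 := (hasSum_dp f N hf t).convolution (hasSum_dp g N hg t)
  have h2 := hasSum_dp (f * g : ArithmeticFunction ℝ) N hfg t
  have e : LSeries.convolution (fun n => (f n : ℂ)) (fun n => (g n : ℂ)) =
      fun n => (((f * g : ArithmeticFunction ℝ) n : ℝ) : ℂ) := by
    rw [LSeries.convolution_def]
    funext n
    rw [ArithmeticFunction.mul_apply]
    push_cast; rfl
  rw [e] at h1
  exact h2.unique h1

lemma dp_pow {t : ArithmeticFunction ℝ} {x : ℝ} (hx : 1 ≤ x) (ht : ∀ n : ℕ, x < n → t n = 0)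
    {N : ℕ} (m : ℕ) (hN : ∀ n : ℕ, N < n → x ^ (m + 1) < n) (s : ℝ) :
    dp (t ^ (m + 1) : ArithmeticFunction ℝ) N s = dp t N s ^ (m + 1) := by
  induction m with
  | zero => simp
  | succ m ih =>
    have h1 : ∀ n : ℕ, N < n → x ^ (m + 1) < n := fun n hn =>
      lt_of_le_of_lt (pow_le_pow_right₀ hx (by omega)) (hN n hn)
    have h0 : ∀ n : ℕ, N < n → x < n := fun n hn =>
      lt_of_le_of_lt (le_self_pow₀ hx (by omega)) (h1 n hn)
    rw [pow_succ t (m + 1), dp_mul (fun n hn => pow_eq_zero_of_lt hx ht _ n (h1 n hn))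
      (fun n hn => ht n (h0 n hn))
      (fun n hn => by rw [← pow_succ]; exact pow_eq_zero_of_lt hx ht _ n (hN n hn)), ih h1]
    ring

/-- Rankin's trick for the main diagonal sum. -/
lemma rankin {b t c : ArithmeticFunction ℝ} {α : ℝ} (hα : 0 ≤ α) (ht : ∀ n, 0 ≤ t n)
    (htb : ∀ n, t n ≤ b n) (hc : ∀ n, 0 ≤ c n) (hb : ∀ n, b n ≤ t n + α * c n) (j N : ℕ)
    (hN : ∀ n, N < n → (t ^ (j + 2)) n = 0)
    (s1 : Summable (pr (zr * b ^ (j + 1)) (b ^ (j + 2))))
    (s2 : Summable (pr (zr * (c * b ^ j)) (b ^ (j + 2))))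
    (s3 : Summable (pr (zr * b ^ (j + 1)) (c * b ^ (j + 1)))) :
    ∑' n, pr (zr * b ^ (j + 1)) (b ^ (j + 2)) n ≤
      ∑ n ∈ Finset.Icc 1 N, (∑ m ∈ n.divisors, (t ^ (j + 1)) m) * (t ^ (j + 2)) n / n +
      (j + 2 : ℝ) * α * (∑' n, pr (zr * (c * b ^ j)) (b ^ (j + 2)) n +
        ∑' n, pr (zr * b ^ (j + 1)) (c * b ^ (j + 1)) n) := by
  have hb0 : ∀ n, 0 ≤ b n := fun n => (ht n).trans (htb n)
  have h0 : HasSum (pr (zr * t ^ (j + 1)) (t ^ (j + 2)))
      (∑ n ∈ Finset.Icc 1 N, (∑ m ∈ n.divisors, (t ^ (j + 1)) m) * (t ^ (j + 2)) n / n) := by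
    have : ∑ n ∈ Finset.Icc 1 N, (∑ m ∈ n.divisors, (t ^ (j + 1)) m) * (t ^ (j + 2)) n / n =
        ∑ n ∈ Finset.Icc 1 N, pr (zr * t ^ (j + 1)) (t ^ (j + 2)) n :=
      Finset.sum_congr rfl fun n _ => by
        rw [pr, zr, ArithmeticFunction.coe_zeta_mul_apply]
    rw [this]
    refine hasSum_sum_of_ne_finset_zero fun n hn => ?_
    rcases eq_or_ne n 0 with rfl | h0
    · simp [pr]
    · have : N < n := by
        simp only [Finset.mem_Icc, not_and, not_le] at hn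
        exact hn (Nat.pos_of_ne_zero h0)
      simp [pr, hN n this]
  have h1 := h0.add ((s2.hasSum.add s3.hasSum).mul_left ((j + 2 : ℝ) * α))
  refine hasSum_le (fun n => ?_) s1.hasSum h1
  have a1 := mul_le_add_af (pow_le_trunc hα ht htb hc hb j) zr_nonneg n
  have a2 := pow_le_trunc hα ht htb hc hb (j + 1) n
  have a3 : (zr * t ^ (j + 1)) n ≤ (zr * b ^ (j + 1)) n :=
    mul_le_mul_af zr_nonneg (pow_nonneg_af ht _) (fun _ => le_rfl) (pow_le_pow_af ht htb _) n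
  have p1 : 0 ≤ (zr * t ^ (j + 1)) n := mul_nonneg_af zr_nonneg (pow_nonneg_af ht _) n
  have p2 : 0 ≤ (b ^ (j + 2)) n := pow_nonneg_af hb0 _ n
  have p3 : 0 ≤ (zr * (c * b ^ j)) n :=
    mul_nonneg_af zr_nonneg (mul_nonneg_af hc (pow_nonneg_af hb0 _)) n
  have p4 : 0 ≤ (c * b ^ (j + 1)) n := mul_nonneg_af hc (pow_nonneg_af hb0 _) n
  simp only [pr]
  rw [← add_div, ← mul_div_assoc, ← add_div]
  refine div_le_div_of_nonneg_right ?_ (Nat.cast_nonneg n)
  push_cast at a2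
  have b1 := mul_le_mul_of_nonneg_right a1 p2
  have b2 := mul_le_mul_of_nonneg_left a2 p1
  have b3 := mul_le_mul_of_nonneg_right a3 (mul_nonneg (by positivity : 0 ≤ ((j : ℝ) + 2) * α) p4)
  have b4 : 0 ≤ α * ((zr * (c * b ^ j)) n * (b ^ (j + 2)) n) := by positivity
  have e : j + 1 + 1 = j + 2 := rfl
  rw [e] at b2
  nlinarith

lemma sum_sq_le {b t : ArithmeticFunction ℝ} (ht : ∀ n, 0 ≤ t n) (htb : ∀ n, t n ≤ b n) (k N : ℕ)
    (s : Summable (pr (b ^ k) (b ^ k))) :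
    ∑ n ∈ Finset.Icc 1 N, (t ^ k) n * (t ^ k) n / n ≤ ∑' n, pr (b ^ k) (b ^ k) n := by
  have hb0 : ∀ n, 0 ≤ b n := fun n => (ht n).trans (htb n)
  refine le_trans (Finset.sum_le_sum fun n _ => ?_) (s.sum_le_tsum (Finset.Icc 1 N) fun n _ => ?_)
  · have h1 := pow_le_pow_af ht htb k n
    have h2 := pow_nonneg_af ht k n
    have h3 := pow_nonneg_af hb0 k n
    rw [pr]
    gcongr
  · have := pow_nonneg_af hb0 k n
    rw [pr]; positivity

end Pool.Agent.Lib.MP_80d0cf_nt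
end
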