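import Pool.Agent.Lib.MP_80d0cf_nt.Zlim
import Pool.Agent.Lib.MP_80d0cf_nt.Trunc

/-! The lower bound for the `2k`-th moment. -/

namespace Pool.Agent.Lib.MP_80d0cf_nt

open Filter Topology

lemma tendsto_err (m : ℕ) {δ : ℝ} (hδ : 0 < δ) :
    Tendsto (fun T : ℝ => T ^ m * Real.exp (-(T ^ δ / 32))) atTop (𝓝 0) := by
  have h := (tendsto_rpow_mul_exp_neg_mul_atTop_nhds_zero (m / δ) (1 / 32) (by norm_num)).comp
    (tendsto_rpow_atTop hδ)
  refine h.congr' ?_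
  filter_upwards [eventually_gt_atTop 0] with T hT
  simp only [Function.comp_apply]
  rw [← Real.rpow_mul hT.le, mul_div_cancel₀ _ hδ.ne', Real.rpow_natCast]
  congr 2; ring

lemma bf_tail {κ lam L θ k : ℝ} (hκ : 0 < κ) (hlam : 0 ≤ lam) (hL : 0 < L) (n : ℕ) :
    bf κ lam L n ≤ trunc (bf κ lam L) (Real.exp (θ * L / k)) n +
      Real.exp (-(κ * θ / (2 * k))) * bf (κ / 2) lam L n := by
  have hc := ((good_bf (a := κ / 2) (by positivity) hlam).dom L hL).nonneg n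
  rw [trunc_apply]
  split_ifs with h
  · have := mul_nonneg (Real.exp_pos (-(κ * θ / (2 * k)))).le hc
    linarith
  · push Not at h
    have hn0 : (0 : ℝ) < n := (Real.exp_pos _).trans h
    have hn : n ≠ 0 := by rintro rfl; simp at hn0
    rw [zero_add, bf_apply _ _ _ hn, bf_apply _ _ _ hn, ← mul_assoc]
    refine mul_le_mul_of_nonneg_right ?_
      (Finset.prod_nonneg fun p _ => by have := one_le_den hlam hL p; positivity)
    rw [Real.rpow_def_of_pos hn0, Real.rpow_def_of_pos hn0, ← Real.exp_add]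
    apply Real.exp_le_exp.2
    have h1 : θ * L / k ≤ Real.log n := by
      rw [Real.le_log_iff_exp_le hn0]; exact h.le
    have h2 : κ / 2 / L * (θ * L / k) ≤ κ / 2 / L * Real.log n := by gcongr
    have h3 : κ / 2 / L * (θ * L / k) = κ * θ / (2 * k) := by field_simp
    have h4 : Real.log n * -(κ / L) = Real.log n * -(κ / 2 / L) - κ / 2 / L * Real.log n := by ring
    linarith

lemma fixed_T : ∃ C : ℝ, 0 < C ∧ ∀ (j : ℕ) (θ κ lam μ T : ℝ), 0 < θ → θ < 1 → 0 < κ → 0 ≤ lam →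
    0 < μ → 12 ≤ T →
    T / 3 * (∑' n, pr (zr * bf κ lam (Real.log T) ^ (j + 1)) (bf κ lam (Real.log T) ^ (j + 2)) n -
      (j + 2 : ℝ) * Real.exp (-(κ * θ / (2 * (j + 2)))) *
        (∑' n, pr (zr * (bf (κ / 2) lam (Real.log T) * bf κ lam (Real.log T) ^ j))
            (bf κ lam (Real.log T) ^ (j + 2)) n +
          ∑' n, pr (zr * bf κ lam (Real.log T) ^ (j + 1))
            (bf (κ / 2) lam (Real.log T) * bf κ lam (Real.log T) ^ (j + 1)) n) -
      C * (T ^ (2 * j + 8) * Real.exp (-(T ^ (1 - θ) / 32))) -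
      (∑' n, pr (bf κ lam (Real.log T) ^ (j + 2)) (bf κ lam (Real.log T) ^ (j + 2)) n +
        T ^ (2 * j + 6) * Real.exp (-(T ^ (1 - θ) / 32))) / μ) ≤
      μ ^ (2 * (j + 1) + 1) * ∫ t in (0 : ℝ)..T, ‖zl t‖ ^ (2 * (j + 2)) := by
  obtain ⟨C, hC, hglob⟩ := global_ineq
  refine ⟨3 * C, by positivity, ?_⟩
  intro j θ κ lam μ T hθ0 hθ1 hκ hlam hμ hT
  have hT0 : 0 < T := by linarith
  have hT1 : 1 ≤ T := by linarith
  set L := Real.log T with hL
  have hL0 : 0 < L := Real.log_pos (by linarith)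
  set b := bf κ lam L with hb
  set c := bf (κ / 2) lam L with hc
  set x := Real.exp (θ * L / (j + 2 : ℝ)) with hx
  set t := trunc b x with ht
  set N := ⌊T ^ θ⌋₊ with hN
  set H := T ^ ((1 + θ) / 2) with hH
  have hbd := (good_bf hκ.le hlam).dom L hL0
  have hcd := (good_bf (a := κ / 2) (by positivity) hlam).dom L hL0
  have ht0 : ∀ n, 0 ≤ t n := trunc_nonneg hbd.nonneg x
  have htb : ∀ n, t n ≤ b n := trunc_le hbd.nonneg x
  have ht1 : ∀ n, t n ≤ 1 := fun n => by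
    refine (htb n).trans ((hbd.le n).trans ?_)
    rw [dk_one]
    rcases eq_or_ne n 0 with rfl | h
    · simp
    · rw [zr_apply h]
  have hx1 : 1 ≤ x := Real.one_le_exp (by positivity)
  have htx : ∀ n : ℕ, x < n → t n = 0 := fun n hn => by
    rw [ht, trunc_apply, if_neg (not_le.2 hn)]
  have hxk : x ^ (j + 2) = T ^ θ := by
    rw [hx, ← Real.exp_nat_mul, Real.rpow_def_of_pos hT0]
    congr 1; push_cast; rw [← hL]; field_simp
  have hTθ1 : 1 ≤ T ^ θ := Real.one_le_rpow hT1 hθ0.le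
  have hN1 : 1 ≤ N := Nat.le_floor (by exact_mod_cast hTθ1)
  have hNle : (N : ℝ) ≤ T ^ θ := Nat.floor_le (by positivity)
  have hNT : (N : ℝ) ≤ T := hNle.trans (by
    simpa using Real.rpow_le_rpow_of_exponent_le hT1 hθ1.le)
  have hN0 : (0 : ℝ) < N := by exact_mod_cast hN1
  have hNx : ∀ n : ℕ, N < n → x ^ (j + 2) < n := fun n hn => by
    rw [hxk]; exact Nat.lt_of_floor_lt hn
  have hNx' : ∀ n : ℕ, N < n → x ^ (j + 1) < n := fun n hn =>
    lt_of_le_of_lt (pow_le_pow_right₀ hx1 (by omega)) (hNx n hn)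
  have hH1 : 1 ≤ H := Real.one_le_rpow hT1 (by linarith)
  have hH2 : H ^ 2 = T ^ (1 + θ) := by
    rw [hH, ← Real.rpow_natCast, ← Real.rpow_mul hT0.le]; congr 1; push_cast; ring
  have key := hglob (j + 1) H T μ N (t ^ (j + 1) : ArithmeticFunction ℝ)
    (t ^ (j + 2) : ArithmeticFunction ℝ) (dp t N) (pow_nonneg_af ht0 _) (pow_nonneg_af ht0 _)
    hH1 hN1 hT hμ (dp_pow hx1 htx j hNx') (dp_pow hx1 htx (j + 1) hNx)
  refine le_trans ?_ key
  refine mul_le_mul_of_nonneg_left ?_ (by positivity)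
  have r1 := rankin (Real.exp_pos (-(κ * θ / (2 * (j + 2 : ℝ))))).le ht0 htb hcd.nonneg
    (bf_tail hκ hlam hL0) j N (fun n hn => pow_eq_zero_of_lt hx1 htx _ n (hNx n hn))
    ((Z1 hκ hlam j).1 L hL0) ((ZR hκ hlam j).1 L hL0) ((ZC hκ hlam j).1 L hL0)
  have r2 := sum_sq_le ht0 htb (j + 2) N ((Z2 hκ hlam j).1 L hL0)
  set η := Real.exp (-(T ^ (1 - θ) / 32)) with hη
  have hη0 : 0 < η := Real.exp_pos _
  have e1 : Real.exp (-((T / 4) ^ 2 / (2 * H ^ 2))) = η := by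
    rw [hη, hH2]; congr 2
    rw [Real.rpow_add hT0, Real.rpow_sub hT0, Real.rpow_one]
    have : 0 < T ^ θ := by positivity
    field_simp; ring
  have e2 : T ^ (1 - θ) ≤ H ^ 2 / (N : ℝ) ^ 2 := by
    rw [le_div_iff₀ (by positivity), hH2]
    calc T ^ (1 - θ) * (N : ℝ) ^ 2 ≤ T ^ (1 - θ) * (T ^ θ) ^ 2 := by gcongr
      _ = T ^ (1 + θ) := by
        rw [sq, ← Real.rpow_add hT0, ← Real.rpow_add hT0]; congr 1; ring
  have e2' : 0 < T ^ (1 - θ) := by positivity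
  have e3 : Real.exp (-(H ^ 2 / (32 * (N : ℝ) ^ 2))) ≤ η := by
    apply Real.exp_le_exp.2
    have : H ^ 2 / (32 * (N : ℝ) ^ 2) = H ^ 2 / (N : ℝ) ^ 2 / 32 := by field_simp
    rw [this]; linarith
  have e4 : Real.exp (-(H ^ 2 / (16 * (N : ℝ) ^ 2))) ≤ η := by
    apply Real.exp_le_exp.2
    have : H ^ 2 / (16 * (N : ℝ) ^ 2) = H ^ 2 / (N : ℝ) ^ 2 / 16 := by field_simp
    rw [this]; linarith
  have s1 : ∑ n ∈ Finset.Icc 1 N, (t ^ (j + 1)) n ≤ T ^ (j + 2) :=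
    (sum_pow_le ht0 ht1 (j + 1) N).trans (by gcongr)
  have s2 : ∑ n ∈ Finset.Icc 1 N, (t ^ (j + 2)) n ≤ T ^ (j + 3) :=
    (sum_pow_le ht0 ht1 (j + 2) N).trans (by gcongr)
  have s1' : 0 ≤ ∑ n ∈ Finset.Icc 1 N, (t ^ (j + 1)) n :=
    Finset.sum_nonneg fun n _ => pow_nonneg_af ht0 _ n
  have s2' : 0 ≤ ∑ n ∈ Finset.Icc 1 N, (t ^ (j + 2)) n :=
    Finset.sum_nonneg fun n _ => pow_nonneg_af ht0 _ n
  have b1 : (∑ n ∈ Finset.Icc 1 N, (t ^ (j + 1)) n) * (∑ n ∈ Finset.Icc 1 N, (t ^ (j + 2)) n) *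
      (C * (T + 4) * (N : ℝ) ^ 2 * Real.exp (-((T / 4) ^ 2 / (2 * H ^ 2))) +
        C * (N : ℝ) ^ 2 * Real.exp (-(H ^ 2 / (32 * (N : ℝ) ^ 2)))) ≤
      3 * C * (T ^ (2 * j + 8) * η) := by
    rw [e1]
    calc _ ≤ T ^ (j + 2) * T ^ (j + 3) * (C * (2 * T) * T ^ 2 * η + C * T ^ 3 * η) := by
          have : (N : ℝ) ^ 2 ≤ T ^ 3 :=
            (pow_le_pow_left₀ hN0.le hNT 2).trans (pow_le_pow_right₀ hT1 (by norm_num))
          gcongr
          linarith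
      _ = _ := by ring
  have b2 : (∑ n ∈ Finset.Icc 1 N, (t ^ (j + 2)) n) ^ 2 *
      Real.exp (-(H ^ 2 / (16 * (N : ℝ) ^ 2))) ≤ T ^ (2 * j + 6) * η := by
    calc _ ≤ (T ^ (j + 3)) ^ 2 * η := by gcongr
      _ = _ := by ring
  have b3 := div_le_div_of_nonneg_right (add_le_add r2 b2) hμ.le
  linarith

lemma main_fixed (j : ℕ) {θ κ lam : ℝ} (hθ0 : 0 < θ) (hθ1 : θ < 1) (hκ : 0 < κ) (hlam : 0 < lam)
    (hcond : 3 * (j + 2 : ℝ) *
      Real.exp (-(κ * θ / (2 * (j + 2))) + (j + 2 : ℝ) * (κ / (2 * lam))) ≤ 1 / 4) :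
    ∀ᶠ T : ℝ in atTop, ak (j + 2) *
      Real.exp ((j + 2 : ℝ) ^ 2 * (cc 1 (κ + κ) lam - 2 * cc 0 κ lam)) / (6 * 8 ^ (2 * j + 3)) *
        Real.log T ^ ((j + 2) ^ 2) ≤ T⁻¹ * ∫ t in (0 : ℝ)..T, ‖zl t‖ ^ (2 * (j + 2)) := by
  obtain ⟨C, hC, hfix⟩ := fixed_T
  set a := ak (j + 2) with ha
  have ha0 : 0 < a := Real.exp_pos _
  set c0 := cc 0 κ lam with hc0
  set c0' := cc 0 (κ / 2) lam with hc0'
  set c1 := cc 1 (κ + κ) lam with hc1
  set c1' := cc 1 (κ / 2 + κ) lam with hc1'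
  set z1 := a * Real.exp (-((j + 2 : ℝ) * c0 + (j + 1 : ℝ) * (j + 2) * c1)) with hz1
  set z2 := a * Real.exp (-((j + 2 : ℝ) ^ 2 * c1)) with hz2
  set zR := a * Real.exp (-((j + 2 : ℝ) * c0 + (j : ℝ) * (j + 2) * c1 + (j + 2 : ℝ) * c1')) with hzR
  set zC := a * Real.exp (-((j + 1 : ℝ) * c0 + c0' + (j + 1 : ℝ) ^ 2 * c1 + (j + 1 : ℝ) * c1'))
    with hzC
  have hz10 : 0 < z1 := by positivity
  have hz20 : 0 < z2 := by positivity
  set α := Real.exp (-(κ * θ / (2 * (j + 2 : ℝ)))) with hα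
  set β := Real.exp ((j + 2 : ℝ) * (κ / (2 * lam))) with hβ
  have hα0 : 0 < α := Real.exp_pos _
  have d1 : c1 - c1' ≤ κ / (2 * lam) := cc_twist hκ hlam
  have d0 : c0 - c0' ≤ Real.log 2 := cc_half hκ hlam.le
  have d2 : 0 < κ / (2 * lam) := by positivity
  have hj : (0 : ℝ) ≤ j := Nat.cast_nonneg j
  have hR : zR ≤ z1 * β := by
    rw [hzR, hz1, hβ, mul_assoc a, ← Real.exp_add]
    gcongr
    nlinarith
  have hCC : zC ≤ z1 * (2 * β) := by
    have : 2 * β = Real.exp (Real.log 2 + (j + 2 : ℝ) * (κ / (2 * lam))) := by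
      rw [Real.exp_add, Real.exp_log (by norm_num)]
    rw [hzC, hz1, this, mul_assoc a, ← Real.exp_add]
    gcongr
    nlinarith
  have htail : (j + 2 : ℝ) * α * (zR + zC) ≤ z1 / 4 := by
    rw [Real.exp_add, ← hα, ← hβ] at hcond
    calc (j + 2 : ℝ) * α * (zR + zC) ≤ (j + 2 : ℝ) * α * (z1 * β + z1 * (2 * β)) := by gcongr
      _ = z1 * (3 * (j + 2 : ℝ) * (α * β)) := by ring
      _ ≤ z1 * (1 / 4) := by gcongr
      _ = z1 / 4 := by ring
  set μ := 8 * z2 / z1 with hμ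
  have hμ0 : 0 < μ := by positivity
  have hlog := Real.tendsto_log_atTop
  have t1 := (Z1 hκ hlam.le j).2.comp hlog
  have t2 := (Z2 hκ hlam.le j).2.comp hlog
  have tR := (ZR hκ hlam.le j).2.comp hlog
  have tC := (ZC hκ hlam.le j).2.comp hlog
  have hΛ : Tendsto (fun T : ℝ => Real.log T ^ ((j + 2) ^ 2)) atTop atTop :=
    (tendsto_pow_atTop (by positivity)).comp hlog
  have te1 := (tendsto_err (2 * j + 8) (sub_pos.2 hθ1)).div_atTop hΛ
  have te2 := (tendsto_err (2 * j + 6) (sub_pos.2 hθ1)).div_atTop hΛ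
  have tall := ((t1.sub ((tR.add tC).const_mul ((j + 2 : ℝ) * α))).sub (te1.const_mul C)).sub
    ((t2.add te2).div_const μ)
  have hlt : z1 / 2 < z1 - (j + 2 : ℝ) * α * (zR + zC) - C * 0 - (z2 + 0) / μ := by
    have : (z2 + 0) / μ = z1 / 8 := by rw [hμ]; field_simp; ring
    rw [this]; linarith
  filter_upwards [tall.eventually (lt_mem_nhds hlt), eventually_ge_atTop 12] with T h1 hT
  have hT0 : 0 < T := by linarith
  have hL0 : 0 < Real.log T := Real.log_pos (by linarith)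
  have h2 := hfix j θ κ lam μ T hθ0 hθ1 hκ hlam.le hμ0 hT
  simp only [Function.comp_apply] at h1
  set Λ := Real.log T ^ ((j + 2) ^ 2) with hΛdef
  have hΛ0 : 0 < Λ := by positivity
  set I := ∫ t in (0 : ℝ)..T, ‖zl t‖ ^ (2 * (j + 2)) with hI
  have h3 : ∀ A B1 B2 E1 D E2 : ℝ, z1 / 2 < A / Λ - (j + 2 : ℝ) * α * (B1 / Λ + B2 / Λ) -
      C * (E1 / Λ) - (D / Λ + E2 / Λ) / μ →
      z1 / 2 * Λ ≤ A - (j + 2 : ℝ) * α * (B1 + B2) - C * E1 - (D + E2) / μ := by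
    intro A B1 B2 E1 D E2 h
    have e : A / Λ - (j + 2 : ℝ) * α * (B1 / Λ + B2 / Λ) - C * (E1 / Λ) - (D / Λ + E2 / Λ) / μ =
      (A - (j + 2 : ℝ) * α * (B1 + B2) - C * E1 - (D + E2) / μ) / Λ := by field_simp
    rw [e, lt_div_iff₀ hΛ0] at h
    exact h.le
  have h4 := h3 _ _ _ _ _ _ h1
  have h5 : T / 3 * (z1 / 2 * Λ) ≤ μ ^ (2 * (j + 1) + 1) * I :=
    le_trans (mul_le_mul_of_nonneg_left h4 (by positivity)) h2
  have e1 : a * Real.exp ((j + 2 : ℝ) ^ 2 * (c1 - 2 * c0)) / (6 * 8 ^ (2 * j + 3)) =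
      z1 / (6 * μ ^ (2 * (j + 1) + 1)) := by
    have e2 : μ = 8 * Real.exp (-((j + 2 : ℝ) ^ 2 * c1) -
        -((j + 2 : ℝ) * c0 + (j + 1 : ℝ) * (j + 2) * c1)) := by
      rw [hμ, hz1, hz2, Real.exp_sub]; field_simp
    have e3 : Real.exp ((j + 2 : ℝ) ^ 2 * (c1 - 2 * c0)) *
        Real.exp (-((j + 2 : ℝ) ^ 2 * c1) - -((j + 2 : ℝ) * c0 + (j + 1 : ℝ) * (j + 2) * c1)) ^
          (2 * (j + 1) + 1) = Real.exp (-((j + 2 : ℝ) * c0 + (j + 1 : ℝ) * (j + 2) * c1)) := by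
      rw [← Real.exp_nat_mul, ← Real.exp_add]
      congr 1; push_cast; ring
    rw [e2, mul_pow, hz1, ← e3, show 2 * (j + 1) + 1 = 2 * j + 3 by ring]
    field_simp
  rw [e1, div_mul_eq_mul_div, div_le_iff₀ (by positivity), inv_mul_eq_div, div_mul_eq_mul_div,
    le_div_iff₀ hT0]
  linarith

lemma inv_factorial_le (n : ℕ) (hn : 0 < n) :
    1 / (n.factorial : ℝ) ≤ Real.exp (n * (1 - Real.log n)) := by
  have hn0 : (0 : ℝ) < n := by exact_mod_cast hn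
  have h := Real.pow_div_factorial_le_exp (n : ℝ) hn0.le n
  rw [mul_sub, mul_one, Real.exp_sub, Real.exp_nat_mul, Real.exp_log hn0,
    le_div_iff₀ (by positivity)]
  simpa [div_eq_inv_mul] using h

theorem main (ε : ℝ) (hε : 0 < ε) : ∀ᶠ j : ℕ in atTop, ∀ᶠ T : ℝ in atTop,
    Real.exp ((Real.eulerMascheroniConstant - ε) * (j + 2 : ℝ) ^ 2) * ak (j + 2) /
      (((j + 2) ^ 2).factorial : ℝ) * Real.log T ^ ((j + 2) ^ 2) ≤
      T⁻¹ * ∫ t in (0 : ℝ)..T, ‖zl t‖ ^ (2 * (j + 2)) := by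
  set θ := Real.exp (-(ε / 6)) with hθ
  have hθ0 : 0 < θ := Real.exp_pos _
  have hθ1 : θ < 1 := by rw [hθ, Real.exp_lt_one_iff]; linarith
  have hθ2 : 0 < 1 - θ := by linarith
  have hk : Tendsto (fun j : ℕ => (j + 2 : ℝ)) atTop atTop :=
    tendsto_atTop_add_const_right _ 2 tendsto_natCast_atTop_atTop
  have l1 : Tendsto (fun j : ℕ => Real.log (12 * (j + 2 : ℝ)) / (12 * (j + 2 : ℝ))) atTop (𝓝 0) :=
    Real.isLittleO_log_id_atTop.tendsto_div_nhds_zero.comp (hk.const_mul_atTop (by norm_num))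
  have l2 := ((l1.const_mul (24 * θ / (1 - θ))).sqrt.const_mul 8)
  simp only [mul_zero, Real.sqrt_zero] at l2
  filter_upwards [l2.eventually (gt_mem_nhds (show 0 < ε / 3 by positivity)),
    hk.eventually_ge_atTop (66 / ε)] with j h1 h2
  set k : ℝ := j + 2 with hkdef
  have hk2 : 2 ≤ k := by have : (0 : ℝ) ≤ j := Nat.cast_nonneg j; linarith
  have hk0 : 0 < k := by linarith
  have hlog : 0 < Real.log (12 * k) := Real.log_pos (by linarith)
  set κ := 2 * k * Real.log (12 * k) / (θ * (1 - θ)) with hκ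
  set lam := k ^ 2 / θ ^ 2 with hlam
  have hκ0 : 0 < κ := by positivity
  have hlam0 : 0 < lam := by positivity
  have hcond : 3 * k * Real.exp (-(κ * θ / (2 * k)) + k * (κ / (2 * lam))) ≤ 1 / 4 := by
    have : -(κ * θ / (2 * k)) + k * (κ / (2 * lam)) = -Real.log (12 * k) := by
      rw [hκ, hlam]; field_simp; ring
    rw [this, Real.exp_neg, Real.exp_log (by positivity)]
    apply le_of_eq; field_simp; norm_num
  filter_upwards [main_fixed j hθ0 hθ1 hκ0 hlam0 hcond, eventually_ge_atTop 1] with T h3 hT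
  refine le_trans ?_ h3
  refine mul_le_mul_of_nonneg_right ?_ (pow_nonneg (Real.log_nonneg hT) _)
  have ha0 : 0 < ak (j + 2) := Real.exp_pos _
  have f1 := inv_factorial_le ((j + 2) ^ 2) (by positivity)
  have f2 : (((j + 2) ^ 2 : ℕ) : ℝ) = k ^ 2 := by rw [hkdef]; push_cast; ring
  rw [f2] at f1
  have g1 := cc_one_ge (a := κ + κ) (by positivity) hlam0
  have g2 := cc_zero_le hκ0 hlam0
  have g3 : κ / lam = 24 * θ / (1 - θ) * (Real.log (12 * k) / (12 * k)) := by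
    rw [hκ, hlam]; field_simp; ring
  have g4 : Real.log lam = Real.log (k ^ 2) + ε / 3 := by
    rw [hlam, Real.log_div (by positivity) (by positivity), Real.log_pow θ, hθ, Real.log_exp]
    push_cast; ring
  rw [← g3] at h1
  have g5 : (6 : ℝ) * 8 ^ (2 * j + 3) ≤ Real.exp (ε / 3 * k ^ 2) := by
    have a1 : (6 : ℝ) ≤ Real.exp 6 := by linarith [Real.add_one_le_exp (6 : ℝ)]
    have a2 : (8 : ℝ) ≤ Real.exp 8 := by linarith [Real.add_one_le_exp (8 : ℝ)]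
    have a3 : 66 ≤ k * ε := by rwa [div_le_iff₀ hε] at h2
    calc (6 : ℝ) * 8 ^ (2 * j + 3) ≤ Real.exp 6 * Real.exp 8 ^ (2 * j + 3) := by gcongr
      _ = Real.exp (6 + (2 * k - 1) * 8) := by
        rw [← Real.exp_nat_mul, ← Real.exp_add]; congr 1; rw [hkdef]; push_cast; ring
      _ ≤ _ := by
        apply Real.exp_le_exp.2
        nlinarith
  rw [le_div_iff₀ (by positivity)]
  calc Real.exp ((Real.eulerMascheroniConstant - ε) * k ^ 2) * ak (j + 2) /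
        (((j + 2) ^ 2).factorial : ℝ) * (6 * 8 ^ (2 * j + 3))
      = ak (j + 2) * (Real.exp ((Real.eulerMascheroniConstant - ε) * k ^ 2) *
        (1 / (((j + 2) ^ 2).factorial : ℝ)) * (6 * 8 ^ (2 * j + 3))) := by ring
    _ ≤ ak (j + 2) * (Real.exp ((Real.eulerMascheroniConstant - ε) * k ^ 2) *
        Real.exp (k ^ 2 * (1 - Real.log (k ^ 2))) * Real.exp (ε / 3 * k ^ 2)) := by gcongr
    _ ≤ _ := by
      rw [← Real.exp_add, ← Real.exp_add]
      gcongr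
      have g6 : Real.eulerMascheroniConstant - ε + (1 - Real.log (k ^ 2)) + ε / 3 ≤
          cc 1 (κ + κ) lam - 2 * cc 0 κ lam := by linarith
      have g7 := mul_le_mul_of_nonneg_left g6 (sq_nonneg k)
      linarith

end Pool.Agent.Lib.MP_80d0cf_nt
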